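import Pool.Agent.TK.Num

/-! # Project TK: classes, cells and hubs -/

namespace Pool.Agent.TK

open Finset

/-- the class of a class -/
theorem cl_cl {M : ℕ} (a b : ℕ) (i : Fin M) : cl a (cl b i) = cl (b * a) i := by
  apply Fin.ext
  simp only [cl]
  exact Nat.div_div_eq_div_mul _ _ _

theorem bx_bx {M : ℕ} (a b : ℕ) (x : V M) : bx a (bx b x) = bx (b * a) x := by
  simp only [bx, cl_cl]

/-- the fine box of `x` (scale `e + 2`) lies in its coarse box (scale `e + 1`) -/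
theorem bx_par {k E μ : ℕ} (h : Par k E μ) (e : ℕ) (he : e < E) (x : V (2 ^ μ)) :
    bx (ka k e ^ 40) (bx (wd (2 ^ μ) k (e + 2)) x) = bx (wd (2 ^ μ) k (e + 1)) x := by
  have hL := LP_of_Par h e he
  rw [bx_bx, wd_succ2, wd_succ]
  congr 1
  obtain ⟨c, hc⟩ := hL.dvd (a := 80) (by norm_num)
  have hκ : 0 < ka k e := hL.κpos
  have e1 : 2 ^ μ / ka k e ^ 80 = c := by
    rw [hc]; exact Nat.mul_div_cancel_left _ (pow_pos hκ _)
  have e2 : 2 ^ μ / ka k e ^ 40 = ka k e ^ 40 * c := by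
    rw [hc, show ka k e ^ 80 * c = ka k e ^ 40 * (ka k e ^ 40 * c) by ring]
    exact Nat.mul_div_cancel_left _ (pow_pos hκ _)
  rw [e1, e2, Nat.mul_comm]

theorem div_lt_of_dvd {M w : ℕ} (hd : w ∣ M) (i : Fin M) : i.val / (M / w) < w := by
  have hM : 0 < M := Fin.pos i
  have hw : 0 < w := Nat.pos_of_dvd_of_pos hd hM
  have h1 : 0 < M / w := Nat.div_pos (Nat.le_of_dvd hM hd) hw
  rw [Nat.div_lt_iff_lt_mul h1, Nat.mul_div_cancel' hd]
  exact i.2

/-- classes of scale `e + 2` are numbered by `< κ ^ 80` -/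
theorem bx_lt {k E μ : ℕ} (h : Par k E μ) (e : ℕ) (he : e < E) (x : V (2 ^ μ)) :
    (bx (wd (2 ^ μ) k (e + 2)) x).1.val < ka k e ^ 80 ∧
      (bx (wd (2 ^ μ) k (e + 2)) x).2.val < ka k e ^ 80 := by
  have hL := LP_of_Par h e he
  rw [wd_succ2]
  exact ⟨div_lt_of_dvd (hL.dvd (by norm_num)) x.1, div_lt_of_dvd (hL.dvd (by norm_num)) x.2⟩

/-- classes of scale `e + 1` are numbered by `< κ ^ 40` -/
theorem rc_lt {k E μ : ℕ} (h : Par k E μ) (e : ℕ) (he : e < E) (x : V (2 ^ μ)) :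
    (rc (wd (2 ^ μ) k (e + 1)) x).1.val < ka k e ^ 40 := by
  have hL := LP_of_Par h e he
  rw [wd_succ]
  exact div_lt_of_dvd (hL.dvd (by norm_num)) x.1

/-- the hub with the column as target -/
theorem hub_col {M w : ℕ} {x a : V M} (hw : 0 < w) (h2 : a.2 = x.2)
    (h1 : cl w a.1 = cl w x.1) : hub w x (a.1.val % w) = a := by
  have h3 : a.1.val / w = x.1.val / w := by
    have := congrArg Fin.val h1
    simpa [cl] using this
  have h4 : x.1.val / w * w + a.1.val % w = a.1.val := by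
    rw [← h3]; exact Nat.div_add_mod' _ _
  unfold hub
  rw [if_pos (Nat.mod_lt _ hw)]
  refine Prod.ext ?_ h2.symm
  apply Fin.ext
  simp only
  rw [h4]
  exact Nat.mod_eq_of_lt a.1.2

/-- the hub with the row as target -/
theorem hub_row {M w : ℕ} {x a : V M} (h1 : a.1 = x.1)
    (h2 : cl w a.2 = cl w x.2) : hub w x (w + a.2.val % w) = a := by
  have h3 : a.2.val / w = x.2.val / w := by
    have := congrArg Fin.val h2
    simpa [cl] using this
  have h4 : x.2.val / w * w + a.2.val % w = a.2.val := by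
    rw [← h3]; exact Nat.div_add_mod' _ _
  unfold hub
  rw [if_neg (by omega)]
  refine Prod.ext h1.symm ?_
  apply Fin.ext
  simp only
  rw [Nat.add_sub_cancel_left, h4]
  exact Nat.mod_eq_of_lt a.2.2

end Pool.Agent.TK
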