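import Pool.Agent.TK.Claim1U
import Pool.Agent.TK.Cells
import Pool.Agent.TH.PeelMain

/-! # Project TK: a good `beta` exists -/

namespace Pool.Agent.TK

open Finset Pool.Agent.H46.SR Pool.Agent.TH

/-- the bundle of a value at level `e` -/
def ownB (M k e : ℕ) (y : Fin M) : Option ℕ :=
  if y.val / ka k e ^ 46 < 2 * M / ka k e ^ 62 then some (y.val / ka k e ^ 46) else none

theorem ka_pos (k e : ℕ) : 0 < ka k e := by
  unfold ka; positivity

theorem card_ownB (M k e j : ℕ) :
    (univ.filter (fun y : Fin M => ownB M k e y = some j)).card ≤ ka k e ^ 46 := by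
  have hK : 0 < ka k e ^ 46 := pow_pos (ka_pos k e) _
  have h1 : ∀ y ∈ univ.filter (fun y : Fin M => ownB M k e y = some j),
      y.val / ka k e ^ 46 = j := by
    intro y hy
    rw [Finset.mem_filter] at hy
    have h2 := hy.2
    unfold ownB at h2
    split_ifs at h2 with h3
    exact Option.some.inj h2
  have h4 := Finset.card_le_card_of_injOn (s := univ.filter (fun y : Fin M =>
      ownB M k e y = some j)) (t := range (ka k e ^ 46)) (fun y => y.val % ka k e ^ 46)
    (fun y _ => Finset.mem_coe.mpr (Finset.mem_range.mpr (Nat.mod_lt _ hK)))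
    (fun y hy y' hy' hyy => by
      have a1 := h1 y (Finset.mem_coe.mp hy)
      have a2 := h1 y' (Finset.mem_coe.mp hy')
      have a3 : y.val % ka k e ^ 46 = y'.val % ka k e ^ 46 := hyy
      apply Fin.ext
      rw [← Nat.div_add_mod y.val (ka k e ^ 46), ← Nat.div_add_mod y'.val (ka k e ^ 46), a1, a2,
        a3])
  rwa [Finset.card_range] at h4

theorem ownB_eq_some {M k e j : ℕ} {y : Fin M} :
    ownB M k e y = some j ↔ y.val / ka k e ^ 46 = j ∧ j < 2 * M / ka k e ^ 62 := by
  unfold ownB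
  split_ifs with h
  · constructor
    · intro h1
      have h2 := Option.some.inj h1
      exact ⟨h2, h2 ▸ h⟩
    · rintro ⟨h1, _⟩
      rw [h1]
  · constructor
    · intro h1; simp at h1
    · rintro ⟨h1, h2⟩
      rw [h1] at h
      exact absurd h2 h

theorem ownB_none {M k e : ℕ} {y : Fin M}
    (h : 2 * M / ka k e ^ 32 ≤ y.val) : ownB M k (e + 1) y = none := by
  have hk : ka k (e + 1) = ka k e ^ 2 := by
    unfold ka; rw [← pow_mul]; congr 1; ring
  have hp : 0 < ka k e := ka_pos k e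
  unfold ownB
  rw [if_neg]
  rw [not_lt, hk, ← pow_mul, ← pow_mul]
  have h1 : 2 * M / ka k e ^ (2 * 62) = 2 * M / ka k e ^ 32 / ka k e ^ (2 * 46) := by
    rw [Nat.div_div_eq_div_mul, ← pow_add]
  rw [h1]
  exact Nat.div_le_div_right h

/-- the chain of classes of `x` -/
def chX (M k E : ℕ) (x : V M) (e : ℕ) : Fin (E + 1) × V M :=
  (⟨min e E, by omega⟩, bx (wd M k (e + 1)) x)

theorem chX_inj (M k E : ℕ) (x : V M) : Set.InjOn (chX M k E x) (range (E + 1) : Finset ℕ) := by
  intro a ha b hb hab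
  have ha' := Finset.mem_range.mp (Finset.mem_coe.mp ha)
  have hb' := Finset.mem_range.mp (Finset.mem_coe.mp hb)
  have h1 := congrArg (fun p => p.1.val) hab
  simp only [chX] at h1
  omega

/-- the peeling lemma for all vertices at once -/
theorem peel_all {k E μ : ℕ} (h : Par k E μ) :
    av (fun β : Fin (E + 1) → V (2 ^ μ) → Fin (2 ^ μ) → Fin (2 ^ μ) =>
      open Classical in if ∀ x : V (2 ^ μ), PG (2 ^ μ) k E
        (fun i => β i (bx (wd (2 ^ μ) k ((i : ℕ) + 1)) x)) then (0 : ℝ) else 1) ≤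
    2 / (2 : ℝ) ^ μ := by
  classical
  set M : ℕ := 2 ^ μ with hM
  have hM0 : 0 < M := by rw [hM]; positivity
  have : NeZero M := ⟨hM0.ne'⟩
  have hMr : (M : ℝ) = (2 : ℝ) ^ μ := by rw [hM]; push_cast; rfl
  have hP := lemmaP (ι := Fin (E + 1) × V M) (J := ℕ) (R := Fin M) (Y := Fin M) (V := V M)
    M (E + 1) (Fintype.card_fin M) (Fintype.card_fin M)
    (by rw [Fintype.card_prod, Fintype.card_fin, sq])
    (κ := fun e => (ka k e : ℝ))
    (by
      have h1 : (4 : ℕ) ≤ ka k 0 := by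
        have h2 := h.hk
        unfold ka
        calc 4 = 2 ^ 2 := by norm_num
          _ ≤ 2 ^ (k * 2 ^ 0) := Nat.pow_le_pow_right (by norm_num) (by simp; omega)
      exact_mod_cast h1)
    (fun e => by
      have hk : ka k (e + 1) = ka k e ^ 2 := by
        unfold ka; rw [← pow_mul]; congr 1; ring
      show (ka k (e + 1) : ℝ) = (ka k e : ℝ) ^ 2
      rw [hk]; push_cast; rfl)
    (fun e y => ownB M k e y)
    (fun e => if e < E then range (2 * M / ka k e ^ 62) else ∅)
    (fun e _ => by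
      by_cases he : e < E
      · simp only [if_pos he, Finset.card_range]
        have h1 : 2 * M / ka k e ^ 62 * ka k e ^ 62 ≤ 2 * M := Nat.div_mul_le_self _ _
        exact_mod_cast h1
      · simp only [if_neg he, Finset.card_empty, Nat.cast_zero, zero_mul]
        positivity)
    (fun e _ j => by
      have h1 := card_ownB M k e j
      exact_mod_cast h1)
    (chX M k E) (chX_inj M k E)
  rw [← hMr]
  set c : ((Fin (E + 1) × V M) → Fin M → Fin M) ≃ (Fin (E + 1) → V M → Fin M → Fin M) :=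
    Equiv.curry _ _ _ with hc
  rw [← av_equiv c]
  unfold av
  rw [div_le_iff₀ (by
    have : 0 < Fintype.card ((Fin (E + 1) × V M) → Fin M → Fin M) := Fintype.card_pos
    exact_mod_cast this)]
  refine le_trans ?_ hP
  rw [← Finset.sum_boole]
  apply Finset.sum_le_sum
  intro β _
  by_cases hg : ∀ x : V M, PG M k E (fun i => (c β) i (bx (wd M k ((i : ℕ) + 1)) x))
  · rw [if_pos hg]
    split_ifs <;> norm_num
  · rw [if_neg hg, if_pos]
    intro hgood
    apply hg
    intro x
    obtain ⟨s, hs⟩ := hgood x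
    have hE := h.hE
    refine ⟨fun ρ => match s ρ with
      | some (e, _) => if he : e < E then ⟨e, he⟩ else ⟨0, hE⟩
      | none => ⟨0, hE⟩, fun e j => ?_⟩
    by_cases hj : j < 2 * M / ka k e ^ 62
    · have h1 := hs e (by omega) j (by rw [if_pos e.2]; exact Finset.mem_range.mpr hj)
      refine le_trans (le_trans (Finset.card_le_card ?_) h1) (by norm_num)
      intro ρ hρ
      rw [Finset.mem_filter] at hρ
      obtain ⟨_, ⟨hb1, hb2, hb3⟩, hb4⟩ := hρ
      rw [Finset.mem_filter]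
      have hcb : ∀ (i : Fin (E + 1)) (u : V M), (c β) i u = β (i, u) := fun i u => rfl
      have hmin : (⟨min (e : ℕ) E, by omega⟩ : Fin (E + 1)) = e.castSucc := by
        apply Fin.ext
        have := e.2
        simp only [Fin.val_castSucc]
        omega
      have hmin' : (⟨min ((e : ℕ) + 1) E, by omega⟩ : Fin (E + 1)) = e.succ := by
        apply Fin.ext
        have := e.2
        simp only [Fin.val_succ]
        omega
      refine ⟨?_, ?_⟩
      · unfold bundleRows
        rw [Finset.mem_filter]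
        refine ⟨Finset.mem_univ _, ?_, fun _ => ?_⟩
        · show ownB M k e (β (chX M k E x e) ρ) = some j
          rw [ownB_eq_some]
          refine ⟨?_, hj⟩
          unfold chX
          rw [hmin]
          exact hb1
        · show ownB M k (e + 1) (β (chX M k E x (e + 1)) ρ) = none
          unfold chX
          rw [hmin']
          exact ownB_none hb3
      · intro hsρ
        apply hb4
        simp [hsρ]
    · rw [Finset.card_eq_zero.mpr]
      · norm_num
      · rw [Finset.filter_eq_empty_iff]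
        rintro ρ _ ⟨⟨_, hb2, _⟩, _⟩
        exact hj hb2

/-- marginal on two levels -/
theorem av_pair {E : ℕ} {Y : Type*} [Fintype Y] [Nonempty Y] (e : Fin E) (f : Y × Y → ℝ) :
    av (fun β : Fin (E + 1) → Y => f (β e.castSucc, β e.succ)) = av f := by
  have hinj : Function.Injective (fun c : Fin 2 => if c = 0 then e.castSucc else e.succ) := by
    intro a b hab
    have hne : e.castSucc ≠ e.succ := by
      intro h
      have := congrArg Fin.val h
      simp at this
    fin_cases a <;> fin_cases b <;> simp_all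
  have h1 := av_comp_inj (B := Y) (fun c : Fin 2 => if c = 0 then e.castSucc else e.succ) hinj
    (fun ω : Fin 2 → Y => f (ω 0, ω 1))
  have h2 := av_equiv (finTwoArrowEquiv Y) f
  have h3 : av (fun ω : Fin 2 → Y => f (ω 0, ω 1)) = av f := h2
  rw [← h3, ← h1]
  apply av_congr
  intro β
  simp

/-- good values of `beta`: `c1R_prob` (`E` levels, failure `1/M` each) and
`Pool.Agent.TH.lemmaP` (failure `2/M`; `ι = Fin (E+1) × V M`, `own` at level `e`: bundle
`y / κ^46` if `< 2 M / κ^62`; `128 ≤ 256` lost rows): `(E + 2) / M < 1` -/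
theorem exists_beta {k E μ : ℕ} (h : Par k E μ) :
    ∃ β : Fin (E + 1) → V (2 ^ μ) → Fin (2 ^ μ) → Fin (2 ^ μ),
      (∀ e : Fin E, C1R (2 ^ μ) (ka k e) (ka k 0 ^ 20) (2 ^ ((e : ℕ) + 5))
        (β e.castSucc) (β e.succ)) ∧
      (∀ x : V (2 ^ μ), PG (2 ^ μ) k E
        (fun i => β i (bx (wd (2 ^ μ) k ((i : ℕ) + 1)) x))) := by
  classical
  by_contra hno
  push Not at hno
  have hM0 : 0 < 2 ^ μ := by positivity
  have hN : NeZero (2 ^ μ) := ⟨hM0.ne'⟩
  set G1 : Fin E → (Fin (E + 1) → V (2 ^ μ) → Fin (2 ^ μ) → Fin (2 ^ μ)) → ℝ := fun e β =>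
    if C1R (2 ^ μ) (ka k e) (ka k 0 ^ 20) (2 ^ ((e : ℕ) + 5)) (β e.castSucc) (β e.succ)
      then 0 else 1 with hG1
  set G2 : (Fin (E + 1) → V (2 ^ μ) → Fin (2 ^ μ) → Fin (2 ^ μ)) → ℝ := fun β =>
    if ∀ x : V (2 ^ μ), PG (2 ^ μ) k E (fun i => β i (bx (wd (2 ^ μ) k ((i : ℕ) + 1)) x))
      then 0 else 1 with hG2
  have h1 : ∀ e : Fin E, av (G1 e) ≤ 1 / (2 : ℝ) ^ μ := by
    intro e
    have h2 := av_pair (Y := V (2 ^ μ) → Fin (2 ^ μ) → Fin (2 ^ μ)) e
      (fun b => if C1R (2 ^ μ) (ka k e) (ka k 0 ^ 20) (2 ^ ((e : ℕ) + 5)) b.1 b.2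
        then (0 : ℝ) else 1)
    have h3 := c1R_prob (LP_of_Par h e e.2)
    have h4 : av (G1 e) = av (fun β : Fin (E + 1) → V (2 ^ μ) → Fin (2 ^ μ) → Fin (2 ^ μ) =>
        if C1R (2 ^ μ) (ka k e) (ka k 0 ^ 20) (2 ^ ((e : ℕ) + 5)) (β e.castSucc) (β e.succ)
        then (0 : ℝ) else 1) := rfl
    rw [h4, h2]
    push_cast at h3
    exact h3
  have h2 : av G2 ≤ 2 / (2 : ℝ) ^ μ := peel_all h
  have h3 : (1 : ℝ) ≤ av (fun β => (∑ e, G1 e β) + G2 β) := by
    have h4 : av (fun _ : Fin (E + 1) → V (2 ^ μ) → Fin (2 ^ μ) → Fin (2 ^ μ) => (1 : ℝ)) = 1 :=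
      av_const 1
    rw [← h4]
    apply av_mono
    intro β
    have hG1n : ∀ e, 0 ≤ G1 e β := by
      intro e; simp only [hG1]; split_ifs <;> norm_num
    have hG2n : 0 ≤ G2 β := by
      simp only [hG2]; split_ifs <;> norm_num
    by_cases hc : ∀ e : Fin E, C1R (2 ^ μ) (ka k e) (ka k 0 ^ 20) (2 ^ ((e : ℕ) + 5))
        (β e.castSucc) (β e.succ)
    · obtain ⟨x, hx⟩ := hno β hc
      have h5 : G2 β = 1 := by
        simp only [hG2]
        rw [if_neg]
        intro hall
        exact hx (hall x)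
      have h6 := Finset.sum_nonneg (s := univ) (fun e _ => hG1n e)
      linarith
    · push Not at hc
      obtain ⟨e, he⟩ := hc
      have h5 : G1 e β = 1 := by
        simp only [hG1]
        rw [if_neg he]
      have h6 := Finset.single_le_sum (s := univ) (f := fun e => G1 e β)
        (fun e _ => hG1n e) (Finset.mem_univ e)
      linarith
  rw [av_add, av_sum] at h3
  have h4 : ∑ e, av (G1 e) ≤ (E : ℝ) * (1 / (2 : ℝ) ^ μ) := by
    calc ∑ e, av (G1 e) ≤ ∑ _e : Fin E, 1 / (2 : ℝ) ^ μ := Finset.sum_le_sum (fun e _ => h1 e)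
      _ = (E : ℝ) * (1 / (2 : ℝ) ^ μ) := by
        rw [Finset.sum_const, Finset.card_univ, Fintype.card_fin, nsmul_eq_mul]
  have h5 : (E : ℝ) + 2 < (2 : ℝ) ^ μ := by
    have h6 : E < 2 ^ E := Nat.lt_two_pow_self
    have h7 := h.h1
    have h8 := h.hk
    have h9 : 200 * (100 * 2 ^ E) ≤ μ := le_trans
      (Nat.mul_le_mul_left 200 (Nat.mul_le_mul_right _ h8)) h7
    have h10 : μ < 2 ^ μ := Nat.lt_two_pow_self
    have h11 : E + 2 < 2 ^ μ := by omega
    exact_mod_cast h11
  have hp : (0 : ℝ) < (2 : ℝ) ^ μ := by positivity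
  have h6 : (1 : ℝ) ≤ ((E : ℝ) + 2) / (2 : ℝ) ^ μ := by
    calc (1 : ℝ) ≤ ∑ e, av (G1 e) + av G2 := h3
      _ ≤ (E : ℝ) * (1 / (2 : ℝ) ^ μ) + 2 / (2 : ℝ) ^ μ := add_le_add h4 h2
      _ = ((E : ℝ) + 2) / (2 : ℝ) ^ μ := by ring
  rw [le_div_iff₀ hp] at h6
  linarith

end Pool.Agent.TK
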