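import Pool.Agent.TK.Num
import Pool.Agent.H46.SR.Av

/-! # Project TK: Claim 1 for a fixed set of rows and a fixed set of units -/

namespace Pool.Agent.TK

open Finset Pool.Agent.H46.SR

/-- average of a product over all coordinates of `V M → Fin M → Fin M` -/
theorem av_pi2 {M : ℕ} (F : V M → Fin M → Fin M → ℝ) :
    av (fun b : V M → Fin M → Fin M => ∏ X, ∏ ρ, F X ρ (b X ρ)) =
      ∏ X, ∏ ρ, av (F X ρ) := by
  have h1 := av_pi_prod (ι := V M) (B := Fin M → Fin M) (fun X η => ∏ ρ, F X ρ (η ρ))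
  refine h1.trans (prod_congr rfl fun X _ => ?_)
  exact av_pi_prod (F X)

/-- product over a set of distinct coordinates -/
theorem av_prod_inj {M : ℕ} {ι : Type*} (S : Finset ι) (π : ι → V M × Fin M)
    (hπ : Set.InjOn π (S : Set ι)) (g : Fin M → ℝ) (hM : 0 < M) :
    av (fun b : V M → Fin M → Fin M => ∏ z ∈ S, g (b (π z).1 (π z).2)) = av g ^ S.card := by
  classical
  have : Nonempty (Fin M) := ⟨⟨0, hM⟩⟩
  set F : V M → Fin M → Fin M → ℝ := fun X ρ y =>
    if (X, ρ) ∈ S.image π then g y else (1 : ℝ) with hF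
  have h1 : ∀ b : V M → Fin M → Fin M, ∏ z ∈ S, g (b (π z).1 (π z).2) =
      ∏ X, ∏ ρ, F X ρ (b X ρ) := by
    intro b
    rw [hF]
    simp only
    rw [← Finset.prod_image (s := S) (g := π) (f := fun c : V M × Fin M => g (b c.1 c.2)) hπ]
    rw [← Fintype.prod_prod_type' (fun (X : V M) (ρ : Fin M) =>
      if (X, ρ) ∈ S.image π then g (b X ρ) else (1 : ℝ))]
    rw [Finset.prod_ite_mem, Finset.univ_inter]
  rw [av_congr h1, av_pi2]
  have h2 : ∀ X ρ, av (F X ρ) =
      if (X, ρ) ∈ S.image π then av g else 1 := by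
    intro X ρ
    rw [hF]
    by_cases hc : (X, ρ) ∈ S.image π
    · simp only [hc, if_true]
    · simp only [hc, if_false]
      exact av_const 1
  have h3 : ∏ X, ∏ ρ, av (F X ρ) =
      ∏ X, ∏ ρ, if (X, ρ) ∈ S.image π then av g else 1 :=
    prod_congr rfl fun X _ => prod_congr rfl fun ρ _ => h2 X ρ
  rw [h3, ← Fintype.prod_prod_type' (fun (X : V M) (ρ : Fin M) =>
      if (X, ρ) ∈ S.image π then av g else (1 : ℝ)), Finset.prod_ite_mem, Finset.univ_inter,
    Finset.prod_const, Finset.card_image_of_injOn hπ]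

/-- number of values in a unit -/
theorem card_unit {M c u : ℕ} (hc : 0 < c) (h : (u + 1) * c ≤ M) :
    (univ.filter fun y : Fin M => y.val / c = u).card = c := by
  have h1 : (univ.filter fun y : Fin M => y.val / c = u).card = (Finset.range c).card := by
    refine (Finset.card_bij (fun (t : ℕ) (ht : t ∈ Finset.range c) =>
      (⟨u * c + t, by
        have := Finset.mem_range.1 ht
        have h2 : (u + 1) * c = u * c + c := by ring
        omega⟩ : Fin M)) ?_ ?_ ?_).symm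
    · intro t ht
      rw [Finset.mem_filter]
      refine ⟨Finset.mem_univ _, ?_⟩
      have := Finset.mem_range.1 ht
      show (u * c + t) / c = u
      rw [mul_comm u c, Nat.mul_add_div hc, Nat.div_eq_of_lt this, add_zero]
    · intro t ht t' ht' h2
      have h3 : u * c + t = u * c + t' := congrArg Fin.val h2
      omega
    · intro y hy
      rw [Finset.mem_filter] at hy
      have h2 : c * (y.val / c) + y.val % c = y.val := Nat.div_add_mod _ _
      refine ⟨y.val % c, Finset.mem_range.2 (Nat.mod_lt _ hc), ?_⟩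
      apply Fin.ext
      show u * c + y.val % c = y.val
      rw [← hy.2, mul_comm]
      exact h2
  rw [h1, Finset.card_range]

/-- the inner average: for fixed `b` -/
theorem inner_av {M κ : ℕ} (hM : 0 < M) (R : Finset (Fin M)) (U : Finset (V M × ℕ))
    (b : V M → Fin M → Fin M) :
    av (fun b' : V M → Fin M → Fin M =>
      Real.exp (-(((U ×ˢ R).filter fun z => eff M κ b b' z.1.1 z.1.2 z.2).card : ℝ))) =
    av (fun y : Fin M => Real.exp (-(if 2 * M / κ ^ 32 ≤ y.val then (1 : ℝ) else 0))) ^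
      ((U ×ˢ R).filter fun z => (b (bx (κ ^ 40) z.1.1) z.2).val / κ ^ 44 = z.1.2).card := by
  classical
  set S := (U ×ˢ R).filter fun z => (b (bx (κ ^ 40) z.1.1) z.2).val / κ ^ 44 = z.1.2 with hS
  have hinj : Set.InjOn (fun z : (V M × ℕ) × Fin M => (z.1.1, z.2)) (S : Set _) := by
    rintro ⟨⟨X, u⟩, ρ⟩ hz ⟨⟨X', u'⟩, ρ'⟩ hz' h
    rw [Finset.mem_coe, hS, Finset.mem_filter] at hz hz'
    simp only [Prod.mk.injEq] at h
    obtain ⟨h1, h2⟩ := h
    subst h1 h2
    have h3 : u = u' := hz.2.symm.trans hz'.2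
    rw [h3]
  rw [← av_prod_inj S (fun z : (V M × ℕ) × Fin M => (z.1.1, z.2)) hinj
    (fun y : Fin M => Real.exp (-(if 2 * M / κ ^ 32 ≤ y.val then (1 : ℝ) else 0))) hM]
  apply av_congr
  intro b'
  rw [← Real.exp_sum]
  congr 1
  rw [Finset.sum_neg_distrib]
  congr 1
  have h1 : ((U ×ˢ R).filter fun z => eff M κ b b' z.1.1 z.1.2 z.2) =
      S.filter fun z => 2 * M / κ ^ 32 ≤ (b' z.1.1 z.2).val := by
    rw [hS, Finset.filter_filter]
    rfl
  rw [h1, Finset.card_filter]
  push_cast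
  rfl

/-- the outer average -/
theorem outer_av {M κ : ℕ} (hM : 0 < M) (hκ : 0 < κ) (R : Finset (Fin M)) (U : Finset (V M × ℕ))
    (hU : ∀ p ∈ U, (p.2 + 1) * κ ^ 44 ≤ M)
    (hinj : Set.InjOn (fun p : V M × ℕ => (bx (κ ^ 40) p.1, p.2)) (U : Set (V M × ℕ)))
    {a : ℝ} (ha0 : 0 ≤ a) (ha1 : a ≤ 1) :
    av (fun b : V M → Fin M → Fin M => a ^
      ((U ×ˢ R).filter fun z => (b (bx (κ ^ 40) z.1.1) z.2).val / κ ^ 44 = z.1.2).card) ≤
    Real.exp (-((1 - a) * ((κ : ℝ) ^ 44 / M) * (U.card * R.card))) := by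
  classical
  have : Nonempty (Fin M) := ⟨⟨0, hM⟩⟩
  have hMR : (0 : ℝ) < M := by exact_mod_cast hM
  -- the number of pairs over `(Y, ρ)` for the value `y`
  set N : V M → Fin M → Fin M → ℕ := fun Y ρ y =>
    ((U ×ˢ R).filter fun z => (bx (κ ^ 40) z.1.1 = Y ∧ z.2 = ρ) ∧
      y.val / κ ^ 44 = z.1.2).card with hN
  set N0 : V M → Fin M → ℕ := fun Y ρ =>
    ((U ×ˢ R).filter fun z => bx (κ ^ 40) z.1.1 = Y ∧ z.2 = ρ).card with hN0
  set F : V M → Fin M → Fin M → ℝ := fun Y ρ y => a ^ N Y ρ y with hF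
  have h1 : ∀ b : V M → Fin M → Fin M, a ^
      ((U ×ˢ R).filter fun z => (b (bx (κ ^ 40) z.1.1) z.2).val / κ ^ 44 = z.1.2).card =
      ∏ Y, ∏ ρ, F Y ρ (b Y ρ) := by
    intro b
    have h2 : ((U ×ˢ R).filter fun z => (b (bx (κ ^ 40) z.1.1) z.2).val / κ ^ 44 = z.1.2).card =
        ∑ Y, ∑ ρ, N Y ρ (b Y ρ) := by
      rw [Finset.card_eq_sum_card_fiberwise (t := univ)
        (f := fun z : (V M × ℕ) × Fin M => (bx (κ ^ 40) z.1.1, z.2))
        (fun _ _ => Finset.mem_coe.2 (Finset.mem_univ _))]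
      rw [← Fintype.sum_prod_type' (fun (Y : V M) (ρ : Fin M) => N Y ρ (b Y ρ))]
      refine Finset.sum_congr rfl fun c _ => ?_
      rw [hN, Finset.filter_filter]
      congr 1
      refine Finset.filter_congr fun z _ => ?_
      constructor
      · rintro ⟨h3, h4⟩
        rw [← h4]
        exact ⟨⟨rfl, rfl⟩, h3⟩
      · rintro ⟨⟨h3, h4⟩, h5⟩
        refine ⟨?_, ?_⟩
        · rw [h3, h4]
          exact h5
        · exact Prod.ext h3 h4
    rw [h2, hF]
    simp only [Finset.prod_pow_eq_pow_sum]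
  rw [av_congr h1, av_pi2]
  have hN1 : ∀ Y ρ y, N Y ρ y ≤ 1 := by
    intro Y ρ y
    rw [hN]
    apply Finset.card_le_one.2
    rintro ⟨⟨X, u⟩, σ⟩ hz ⟨⟨X', u'⟩, σ'⟩ hz'
    rw [Finset.mem_filter, Finset.mem_product] at hz hz'
    obtain ⟨⟨hz1, -⟩, ⟨hz2, hz3⟩, hz4⟩ := hz
    obtain ⟨⟨hz1', -⟩, ⟨hz2', hz3'⟩, hz4'⟩ := hz'
    have h3 : (X, u) = (X', u') := by
      apply hinj (Finset.mem_coe.2 hz1) (Finset.mem_coe.2 hz1')
      show (bx (κ ^ 40) X, u) = (bx (κ ^ 40) X', u')
      exact Prod.ext (hz2.trans hz2'.symm) (hz4.symm.trans hz4')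
    have h4 : σ = σ' := hz3.trans hz3'.symm
    rw [h3, h4]
  have h5 : ∀ Y ρ, av (fun y : Fin M => (N Y ρ y : ℝ)) = (κ : ℝ) ^ 44 / M * N0 Y ρ := by
    intro Y ρ
    have h6 : ∀ y : Fin M, (N Y ρ y : ℝ) =
        ∑ z ∈ (U ×ˢ R).filter fun z => bx (κ ^ 40) z.1.1 = Y ∧ z.2 = ρ,
          if y.val / κ ^ 44 = z.1.2 then (1 : ℝ) else 0 := by
      intro y
      rw [hN]
      simp only
      rw [← Finset.filter_filter, Finset.card_filter]
      push_cast
      rfl
    rw [av_congr h6, av_sum]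
    rw [hN0]
    simp only
    rw [Finset.card_eq_sum_ones]
    push_cast
    rw [Finset.mul_sum]
    refine Finset.sum_congr rfl fun z hz => ?_
    have h7 : (z.1.2 + 1) * κ ^ 44 ≤ M :=
      hU _ (Finset.mem_product.1 (Finset.mem_filter.1 hz).1).1
    have h8 := card_unit (pow_pos hκ 44) h7
    unfold av
    rw [Finset.sum_boole, Fintype.card_fin, h8]
    push_cast
    ring
  have h9 : ∀ Y ρ, av (F Y ρ) ≤
      Real.exp (-((1 - a) * ((κ : ℝ) ^ 44 / M) * N0 Y ρ)) := by
    intro Y ρ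
    have h10 : ∀ y, F Y ρ y = 1 + (-(1 - a)) * (N Y ρ y : ℝ) := by
      intro y
      show a ^ N Y ρ y = 1 + (-(1 - a)) * (N Y ρ y : ℝ)
      have := hN1 Y ρ y
      interval_cases (N Y ρ y)
      · simp
      · simp
    rw [av_congr h10, av_add, av_mul_left, h5, av_const]
    have := Real.add_one_le_exp (-((1 - a) * ((κ : ℝ) ^ 44 / M) * N0 Y ρ))
    refine le_trans (le_of_eq ?_) this
    ring
  have h11 : ∀ Y ρ, 0 ≤ av (F Y ρ) :=
    fun Y ρ => av_nonneg fun y => pow_nonneg ha0 _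
  calc ∏ Y, ∏ ρ, av (F Y ρ)
      ≤ ∏ Y, ∏ ρ, Real.exp (-((1 - a) * ((κ : ℝ) ^ 44 / M) * N0 Y ρ)) := by
        refine Finset.prod_le_prod (fun Y _ => Finset.prod_nonneg fun ρ _ => h11 Y ρ)
          fun Y _ => ?_
        exact Finset.prod_le_prod (fun ρ _ => h11 Y ρ) fun ρ _ => h9 Y ρ
    _ = Real.exp (-((1 - a) * ((κ : ℝ) ^ 44 / M) * (U.card * R.card))) := by
        simp only [← Real.exp_sum]
        congr 1
        simp only [Finset.sum_neg_distrib, ← Finset.mul_sum]
        congr 2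
        have h12 : (U ×ˢ R).card = ∑ Y, ∑ ρ, N0 Y ρ := by
          rw [Finset.card_eq_sum_card_fiberwise (t := univ)
            (f := fun z : (V M × ℕ) × Fin M => (bx (κ ^ 40) z.1.1, z.2))
            (fun _ _ => Finset.mem_coe.2 (Finset.mem_univ _))]
          rw [← Fintype.sum_prod_type' (fun (Y : V M) (ρ : Fin M) => N0 Y ρ)]
          refine Finset.sum_congr rfl fun c _ => ?_
          rw [hN0]
          simp only
          congr 1
          refine Finset.filter_congr fun z _ => ?_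
          constructor
          · intro h4
            rw [← h4]
            exact ⟨rfl, rfl⟩
          · rintro ⟨h3, h4⟩
            exact Prod.ext h3 h4
        rw [Finset.card_product] at h12
        have h13 : ((U.card * R.card : ℕ) : ℝ) = ((∑ Y, ∑ ρ, N0 Y ρ : ℕ) : ℝ) := by rw [h12]
        push_cast at h13
        exact h13.symm

/-- Fixed rows `R` and fixed units `U` (with their fine boxes). Exponential moment
`E exp (- sum_(p in U) cnt_p)` with `cnt_p` = number of effective rows in `R`: for fixed `b` the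
active pairs (coarse box `X`, row) use different coordinates `(fine box, row)` of `b'` (the fine
box lies in `X`); then average over `b`: the factor of `(X, row)` is
`1 - (1 - 1/e) (1 - 2/κ^32) (κ^44 / M) #(units of X in U)`. -/
theorem c1_fixed {M κ La D : ℕ} (h : LP M κ La D) (i : ℕ) (hi : 2 ^ i ≤ κ ^ 40)
    (R : Finset (Fin M)) (hR : R.card = La * M / (κ * 2 ^ i)) (U : Finset (V M × ℕ))
    (hU : ∀ p ∈ U, p.1.1.val < κ ^ 80 ∧ p.1.2.val < κ ^ 80 ∧ p.2 < 2 * M / κ ^ 60)
    (hinj : Set.InjOn (fun p : V M × ℕ => (bx (κ ^ 40) p.1, p.2)) (U : Set (V M × ℕ))) :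
    av (fun b : (V M → Fin M → Fin M) × (V M → Fin M → Fin M) =>
      if ∀ p ∈ U, (R.filter fun ρ => eff M κ b.1 b.2 p.1 p.2 ρ).card * 2 ^ i < κ ^ 43
        then (1 : ℝ) else 0) ≤
      Real.exp (-((U.card : ℝ) * ((La : ℝ) * (κ : ℝ) ^ 43 / 2 ^ i) / 2)) := by
  classical
  have hM := h.Mpos
  have hκ := h.κpos
  have hLa := h.Lapos
  have hMR : (0 : ℝ) < M := by exact_mod_cast hM
  have hκR : (0 : ℝ) < κ := by exact_mod_cast hκ
  have hκ2 : (2 : ℝ) ^ 100 ≤ κ := by exact_mod_cast h.κ100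
  have hLa2 : (2 : ℝ) ^ 100 ≤ La := by exact_mod_cast h.La100
  have : Nonempty (Fin M) := ⟨⟨0, hM⟩⟩
  -- units are inside the range
  have hU' : ∀ p ∈ U, (p.2 + 1) * κ ^ 44 ≤ M := by
    intro p hp
    obtain ⟨-, -, h3⟩ := hU p hp
    have h4 : p.2 + 1 ≤ 2 * M / κ ^ 60 := h3
    have h5 : (p.2 + 1) * κ ^ 60 ≤ 2 * M :=
      (Nat.mul_le_mul_right _ h4).trans (Nat.div_mul_le_self _ _)
    have h6 : 2 * κ ^ 44 ≤ κ ^ 60 := by
      calc 2 * κ ^ 44 ≤ κ ^ 16 * κ ^ 44 := by
            apply Nat.mul_le_mul_right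
            calc 2 ≤ κ := le_trans (by norm_num) h.κ100
              _ = κ ^ 1 := (pow_one κ).symm
              _ ≤ κ ^ 16 := Nat.pow_le_pow_right hκ (by norm_num)
        _ = κ ^ 60 := by rw [← pow_add]
    have h7 : (p.2 + 1) * (2 * κ ^ 44) ≤ 2 * M := (Nat.mul_le_mul_left _ h6).trans h5
    have h8 : (p.2 + 1) * (2 * κ ^ 44) = 2 * ((p.2 + 1) * κ ^ 44) := by ring
    omega
  -- the number of rows
  have hRR : (R.card : ℝ) * ((κ : ℝ) ^ 44 / M) = (La : ℝ) * (κ : ℝ) ^ 43 / 2 ^ i := by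
    obtain ⟨c, hc⟩ := h.dvd_i hi
    have hpos : 0 < κ * 2 ^ i := by positivity
    have h1 : R.card = La * c := by
      rw [hR, hc]
      rw [show La * (κ * 2 ^ i * c) = (La * c) * (κ * 2 ^ i) by ring, Nat.mul_div_cancel _ hpos]
    have h2 : (M : ℝ) = κ * 2 ^ i * c := by
      rw [hc]
      push_cast
      ring
    have hc0 : (0 : ℝ) < c := by
      have : 0 < c := by
        rcases Nat.eq_zero_or_pos c with h0 | h0
        · rw [h0, mul_zero] at hc
          omega
        · exact h0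
      exact_mod_cast this
    rw [h1, h2]
    push_cast
    field_simp
  -- the inner average
  set a := av (fun y : Fin M => Real.exp (-(if 2 * M / κ ^ 32 ≤ y.val then (1 : ℝ) else 0)))
    with ha
  have ha0 : 0 ≤ a := av_nonneg fun y => (Real.exp_pos _).le
  have ha4 : a ≤ 2 / 5 := by
    have h1 : ∀ y : Fin M, Real.exp (-(if 2 * M / κ ^ 32 ≤ y.val then (1 : ℝ) else 0)) ≤
        Real.exp (-1) + if y.val < 2 * M / κ ^ 32 then (1 : ℝ) else 0 := by
      intro y
      by_cases hy : 2 * M / κ ^ 32 ≤ y.val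
      · rw [if_pos hy, if_neg (not_lt.2 hy), add_zero]
      · rw [if_neg hy, if_pos (not_le.1 hy), neg_zero, Real.exp_zero]
        have := Real.exp_pos (-1)
        linarith
    have h2 : a ≤ av (fun y : Fin M => Real.exp (-1) +
        if y.val < 2 * M / κ ^ 32 then (1 : ℝ) else 0) := av_mono h1
    rw [av_add, av_const] at h2
    have h3 : av (fun y : Fin M => if y.val < 2 * M / κ ^ 32 then (1 : ℝ) else 0) ≤
        2 / (κ : ℝ) ^ 32 := by
      unfold av
      rw [Finset.sum_boole, Fintype.card_fin]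
      have h4 : (univ.filter fun y : Fin M => y.val < 2 * M / κ ^ 32).card ≤
          2 * M / κ ^ 32 := by
        have h5 : (univ.filter fun y : Fin M => y.val < 2 * M / κ ^ 32).card ≤
            (Finset.range (2 * M / κ ^ 32)).card := by
          apply Finset.card_le_card_of_injOn (fun y => y.val)
          · intro y hy
            exact Finset.mem_coe.2 (Finset.mem_range.2 (Finset.mem_filter.1 hy).2)
          · intro y _ y' _ h6
            exact Fin.ext h6
        rwa [Finset.card_range] at h5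
      have h5 : (((2 * M / κ ^ 32 : ℕ)) : ℝ) ≤ 2 * M / (κ : ℝ) ^ 32 := by
        have := Nat.cast_div_le (α := ℝ) (m := 2 * M) (n := κ ^ 32)
        push_cast at this
        exact this
      have h6 : ((univ.filter fun y : Fin M => y.val < 2 * M / κ ^ 32).card : ℝ) ≤
          2 * M / (κ : ℝ) ^ 32 := le_trans (by exact_mod_cast h4) h5
      rw [div_le_iff₀ hMR]
      calc ((univ.filter fun y : Fin M => y.val < 2 * M / κ ^ 32).card : ℝ)
          ≤ 2 * M / (κ : ℝ) ^ 32 := h6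
        _ = 2 / (κ : ℝ) ^ 32 * M := by ring
    have h7 : 2 / (κ : ℝ) ^ 32 ≤ 1 / 100 := by
      rw [div_le_div_iff₀ (by positivity) (by norm_num)]
      have h8 : (2 : ℝ) ^ 100 ≤ (κ : ℝ) ^ 32 := by
        calc (2 : ℝ) ^ 100 ≤ κ := hκ2
          _ = (κ : ℝ) ^ 1 := (pow_one _).symm
          _ ≤ (κ : ℝ) ^ 32 := pow_le_pow_right₀ (le_trans (by norm_num) hκ2) (by norm_num)
      have h9 : (200 : ℝ) ≤ 2 ^ 100 := by norm_num
      linarith
    have h8 : Real.exp (-1) ≤ 38 / 100 := by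
      rw [Real.exp_neg, inv_le_comm₀ (Real.exp_pos 1) (by norm_num)]
      have := Real.exp_one_gt_d9
      norm_num
      linarith
    linarith
  -- Markov
  set T : ℝ := (U.card : ℝ) * ((κ : ℝ) ^ 43 / 2 ^ i) with hT
  have hmark : ∀ b : (V M → Fin M → Fin M) × (V M → Fin M → Fin M),
      (if ∀ p ∈ U, (R.filter fun ρ => eff M κ b.1 b.2 p.1 p.2 ρ).card * 2 ^ i < κ ^ 43
        then (1 : ℝ) else 0) ≤
      Real.exp T * Real.exp (-(((U ×ˢ R).filter fun z =>
        eff M κ b.1 b.2 z.1.1 z.1.2 z.2).card : ℝ)) := by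
    intro b
    by_cases hb : ∀ p ∈ U, (R.filter fun ρ => eff M κ b.1 b.2 p.1 p.2 ρ).card * 2 ^ i < κ ^ 43
    · rw [if_pos hb, ← Real.exp_add]
      apply Real.one_le_exp
      have h1 : ((U ×ˢ R).filter fun z => eff M κ b.1 b.2 z.1.1 z.1.2 z.2).card =
          ∑ p ∈ U, (R.filter fun ρ => eff M κ b.1 b.2 p.1 p.2 ρ).card := by
        rw [Finset.card_filter, Finset.sum_product]
        refine Finset.sum_congr rfl fun p _ => ?_
        rw [Finset.card_filter]
      have h2 : (((U ×ˢ R).filter fun z => eff M κ b.1 b.2 z.1.1 z.1.2 z.2).card : ℝ) ≤ T := by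
        rw [h1, hT]
        push_cast
        calc ∑ p ∈ U, ((R.filter fun ρ => eff M κ b.1 b.2 p.1 p.2 ρ).card : ℝ)
            ≤ ∑ p ∈ U, ((κ : ℝ) ^ 43 / 2 ^ i) := by
              refine Finset.sum_le_sum fun p hp => ?_
              rw [le_div_iff₀ (by positivity)]
              exact_mod_cast (hb p hp).le
          _ = (U.card : ℝ) * ((κ : ℝ) ^ 43 / 2 ^ i) := by
              rw [Finset.sum_const, nsmul_eq_mul]
      linarith
    · rw [if_neg hb]
      positivity
  refine (av_mono hmark).trans ?_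
  rw [av_mul_left, av_prod]
  have h1 : ∀ b : V M → Fin M → Fin M, av (fun b' : V M → Fin M → Fin M =>
      Real.exp (-(((U ×ˢ R).filter fun z => eff M κ (b, b').1 (b, b').2 z.1.1 z.1.2 z.2).card
        : ℝ))) = a ^
      ((U ×ˢ R).filter fun z => (b (bx (κ ^ 40) z.1.1) z.2).val / κ ^ 44 = z.1.2).card :=
    fun b => inner_av hM R U b
  rw [av_congr h1]
  have h2 := outer_av hM hκ R U hU' hinj ha0 (le_trans ha4 (by norm_num))
  calc Real.exp T * av (fun b : V M → Fin M → Fin M => a ^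
      ((U ×ˢ R).filter fun z => (b (bx (κ ^ 40) z.1.1) z.2).val / κ ^ 44 = z.1.2).card)
      ≤ Real.exp T * Real.exp (-((1 - a) * ((κ : ℝ) ^ 44 / M) * (U.card * R.card))) :=
        mul_le_mul_of_nonneg_left h2 (Real.exp_pos _).le
    _ = Real.exp (T - (1 - a) * (U.card * ((La : ℝ) * (κ : ℝ) ^ 43 / 2 ^ i))) := by
        rw [← Real.exp_add, ← hRR]
        congr 1
        ring
    _ ≤ Real.exp (-((U.card : ℝ) * ((La : ℝ) * (κ : ℝ) ^ 43 / 2 ^ i) / 2)) := by
        apply Real.exp_le_exp.2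
        rw [hT]
        set W : ℝ := (U.card : ℝ) * ((κ : ℝ) ^ 43 / 2 ^ i) with hW
        have hW0 : 0 ≤ W := by positivity
        have h3 : (U.card : ℝ) * ((La : ℝ) * (κ : ℝ) ^ 43 / 2 ^ i) = La * W := by
          rw [hW]
          ring
        rw [h3]
        have h4 : (3 / 5 : ℝ) * (La * W) ≤ (1 - a) * (La * W) := by
          apply mul_le_mul_of_nonneg_right _ (by positivity)
          linarith
        have h5 : W * 10 ≤ W * La := by
          apply mul_le_mul_of_nonneg_left _ hW0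
          exact le_trans (by norm_num) hLa2
        nlinarith

end Pool.Agent.TK
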