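import Pool.Agent.TK.Num

/-! # Project TK: Claim 1, dyadic decomposition -/

namespace Pool.Agent.TK

open Finset

theorem C1_of_C1R {M κ La D : ℕ} (h : LP M κ La D) {b b' : V M → Fin M → Fin M}
    (h1 : C1R M κ La D b b') : C1 M κ La D b b' := by
  classical
  intro Q hQ hQc U hU hinj hW
  obtain ⟨a, ha⟩ := h.hκ
  have ha100 : 100 ≤ a := by
    have h2 := h.κ100
    rw [ha] at h2
    exact (Nat.pow_le_pow_iff_right (by norm_num)).mp h2
  set bb : Fin M → ℕ := fun ρ => (Q.filter (fun v => v.2 = ρ)).card with hbb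
  have hb40 : ∀ ρ, bb ρ ≤ κ ^ 40 := by
    intro ρ
    have : (Q.filter (fun v => v.2 = ρ)).card ≤ (Finset.range (κ ^ 40)).card := by
      apply Finset.card_le_card_of_injOn (fun v => v.1.val)
      · intro v hv
        rw [Finset.mem_coe, Finset.mem_filter] at hv
        rw [Finset.mem_coe, Finset.mem_range]
        exact hQ v hv.1
      · intro v hv w hw hvw
        rw [Finset.mem_coe, Finset.mem_filter] at hv hw
        exact Prod.ext (Fin.ext hvw) (hv.2.trans hw.2.symm)
    rwa [Finset.card_range] at this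
  have hsum : ∑ ρ, bb ρ = 2 * La * M := by
    rw [← hQc]
    exact (Finset.card_eq_sum_card_fiberwise (f := fun v : V M => v.2) (s := Q)
      (t := Finset.univ) (fun v _ => Finset.mem_univ _)).symm
  -- the dyadic classes
  set cls : ℕ → Finset (Fin M) := fun i =>
    Finset.univ.filter (fun ρ => 2 ^ i ≤ bb ρ ∧ bb ρ < 2 ^ (i + 1)) with hcls
  have hκ40 : κ ^ 40 = 2 ^ (40 * a) := by rw [ha, ← pow_mul, mul_comm]
  have hex : ∃ i ∈ Finset.range (40 * a + 1), La * M / (κ * 2 ^ i) ≤ (cls i).card := by
    by_contra hcon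
    push Not at hcon
    have h2 : ∑ ρ, bb ρ ≤ ∑ i ∈ Finset.range (40 * a + 1), ∑ ρ ∈ cls i, bb ρ := by
      have h3 : ∀ ρ, bb ρ ≤ ∑ i ∈ Finset.range (40 * a + 1), if ρ ∈ cls i then bb ρ else 0 := by
        intro ρ
        rcases Nat.eq_zero_or_pos (bb ρ) with h0 | h0
        · rw [h0]; exact Nat.zero_le _
        · have hlog1 := Nat.pow_log_le_self 2 h0.ne'
          have hlog2 := Nat.lt_pow_succ_log_self (by norm_num : 1 < 2) (bb ρ)
          have hlog3 : Nat.log 2 (bb ρ) ≤ 40 * a := by
            have h4 : 2 ^ Nat.log 2 (bb ρ) ≤ 2 ^ (40 * a) :=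
              hlog1.trans ((hb40 ρ).trans hκ40.le)
            exact (Nat.pow_le_pow_iff_right (by norm_num)).mp h4
          have hmem : ρ ∈ cls (Nat.log 2 (bb ρ)) := by
            rw [hcls]
            simp only [Finset.mem_filter, Finset.mem_univ, true_and]
            exact ⟨hlog1, hlog2⟩
          calc bb ρ = if ρ ∈ cls (Nat.log 2 (bb ρ)) then bb ρ else 0 := by rw [if_pos hmem]
            _ ≤ _ := Finset.single_le_sum (f := fun i => if ρ ∈ cls i then bb ρ else 0)
                (fun i _ => Nat.zero_le _) (Finset.mem_range.mpr (by omega))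
      calc ∑ ρ, bb ρ ≤ ∑ ρ, ∑ i ∈ Finset.range (40 * a + 1),
              if ρ ∈ cls i then bb ρ else 0 := Finset.sum_le_sum (fun ρ _ => h3 ρ)
        _ = ∑ i ∈ Finset.range (40 * a + 1), ∑ ρ, if ρ ∈ cls i then bb ρ else 0 :=
            Finset.sum_comm
        _ = _ := by
            apply Finset.sum_congr rfl
            intro i _
            rw [← Finset.sum_filter, Finset.filter_mem_eq_inter, Finset.univ_inter]
    have h5 : ∀ i ∈ Finset.range (40 * a + 1), (∑ ρ ∈ cls i, bb ρ) * κ < 2 * La * M := by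
      intro i hi
      have h6 := hcon i hi
      have h7 : ∑ ρ ∈ cls i, bb ρ ≤ (cls i).card * 2 ^ (i + 1) := by
        rw [← smul_eq_mul]
        apply Finset.sum_le_card_nsmul
        intro ρ hρ
        rw [hcls] at hρ
        simp only [Finset.mem_filter, Finset.mem_univ, true_and] at hρ
        exact hρ.2.le
      have hpos : 0 < κ * 2 ^ i := Nat.mul_pos h.κpos (by positivity)
      have h8 : (cls i).card * (κ * 2 ^ i) < La * M := by
        calc (cls i).card * (κ * 2 ^ i) < (La * M / (κ * 2 ^ i)) * (κ * 2 ^ i) :=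
              Nat.mul_lt_mul_of_pos_right h6 hpos
          _ ≤ La * M := Nat.div_mul_le_self _ _
      calc (∑ ρ ∈ cls i, bb ρ) * κ ≤ ((cls i).card * 2 ^ (i + 1)) * κ :=
            Nat.mul_le_mul_right _ h7
        _ = 2 * ((cls i).card * (κ * 2 ^ i)) := by ring
        _ < 2 * (La * M) := by omega
        _ = 2 * La * M := by ring
    have h9 : (∑ ρ, bb ρ) * κ ≤ (40 * a + 1) * (2 * La * M) := by
      calc (∑ ρ, bb ρ) * κ ≤ (∑ i ∈ Finset.range (40 * a + 1), ∑ ρ ∈ cls i, bb ρ) * κ :=
            Nat.mul_le_mul_right _ h2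
        _ = ∑ i ∈ Finset.range (40 * a + 1), (∑ ρ ∈ cls i, bb ρ) * κ := Finset.sum_mul _ _ _
        _ ≤ ∑ i ∈ Finset.range (40 * a + 1), 2 * La * M :=
            Finset.sum_le_sum (fun i hi => (h5 i hi).le)
        _ = (40 * a + 1) * (2 * La * M) := by
            rw [Finset.sum_const, Finset.card_range, smul_eq_mul]
    rw [hsum] at h9
    have hpos : 0 < 2 * La * M := by
      have := h.Lapos
      have := h.Mpos
      positivity
    have h10 : κ ≤ 40 * a + 1 := by
      have : (2 * La * M) * κ ≤ (2 * La * M) * (40 * a + 1) := by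
        rw [mul_comm (2 * La * M) (40 * a + 1)]
        exact h9
      exact Nat.le_of_mul_le_mul_left this hpos
    have h11 : 40 * a + 1 < 2 ^ a := by
      clear * - ha100
      induction a, ha100 using Nat.le_induction with
      | base => norm_num
      | succ n hn ih =>
        rw [pow_succ]
        omega
    rw [ha] at h10
    omega
  obtain ⟨i, hi, hic⟩ := hex
  obtain ⟨R, hR, hRc⟩ := Finset.exists_subset_card_eq hic
  have hi40 : 2 ^ i ≤ κ ^ 40 := by
    rw [hκ40]
    apply Nat.pow_le_pow_right (by norm_num)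
    rw [Finset.mem_range] at hi
    omega
  refine h1 i hi40 R hRc U hU hinj ?_
  intro p hp
  refine lt_of_le_of_lt ?_ (hW p hp)
  calc (R.filter fun ρ => eff M κ b b' p.1 p.2 ρ).card * 2 ^ i
      ≤ ∑ ρ ∈ R.filter (fun ρ => eff M κ b b' p.1 p.2 ρ), bb ρ := by
        rw [← smul_eq_mul]
        apply Finset.card_nsmul_le_sum
        intro ρ hρ
        rw [Finset.mem_filter] at hρ
        have := hR hρ.1
        rw [hcls] at this
        simp only [Finset.mem_filter, Finset.mem_univ, true_and] at this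
        exact this.1
    _ = ((R.filter (fun ρ => eff M κ b b' p.1 p.2 ρ)).biUnion
          (fun ρ => Q.filter (fun v => v.2 = ρ))).card := by
        rw [Finset.card_biUnion]
        intro ρ _ ρ' _ hne
        rw [Function.onFun, Finset.disjoint_left]
        intro v hv hv'
        rw [Finset.mem_filter] at hv hv'
        exact hne (hv.2.symm.trans hv'.2)
    _ ≤ (Q.filter fun v => eff M κ b b' p.1 p.2 v.2).card := by
        apply Finset.card_le_card
        intro v hv
        rw [Finset.mem_biUnion] at hv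
        obtain ⟨ρ, hρ, hv⟩ := hv
        rw [Finset.mem_filter] at hρ hv ⊢
        exact ⟨hv.1, by rw [hv.2]; exact hρ.2⟩

end Pool.Agent.TK
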