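import Pool.Agent.TK.Claim1

/-! # Project TK: Claim 1, union bound over the rows and the units -/

namespace Pool.Agent.TK

open Finset Pool.Agent.H46.SR

theorem Claim1U_log {κ : ℝ} (hκ : (2 : ℝ) ^ 100 ≤ κ) : 143 * Real.log κ < κ := by
  have h0 : (0 : ℝ) < κ := lt_of_lt_of_le (by positivity) hκ
  have h1 : (0 : ℝ) < Real.sqrt κ := Real.sqrt_pos.2 h0
  have h2 : Real.log κ = 2 * Real.log (Real.sqrt κ) := by
    rw [Real.log_sqrt h0.le]
    ring
  have h3 : Real.log (Real.sqrt κ) ≤ Real.sqrt κ - 1 := Real.log_le_sub_one_of_pos h1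
  have h4 : (2 : ℝ) ^ 50 ≤ Real.sqrt κ := by
    apply Real.le_sqrt_of_sq_le
    rw [← pow_mul]
    exact hκ
  have h5 : κ = Real.sqrt κ * Real.sqrt κ := (Real.mul_self_sqrt h0.le).symm
  have h6 : (286 : ℝ) ≤ Real.sqrt κ := le_trans (by norm_num) h4
  rw [h2]
  nlinarith

/-- the numbers of Claim 1 for one `i` -/
theorem Claim1U_num {M κ La D : ℕ} (h : LP M κ La D) (i : ℕ) (hi : 2 ^ i ≤ κ ^ 40) (N : ℕ)
    (hN : N ≤ 2 * M * κ ^ 100) :
    ((M.choose (La * M / (κ * 2 ^ i)) : ℕ) : ℝ) *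
      (((N.choose (La * M / (D * κ ^ 40)) : ℕ) : ℝ) *
      Real.exp (-(((La * M / (D * κ ^ 40) : ℕ) : ℝ) *
        ((La : ℝ) * (κ : ℝ) ^ 43 / 2 ^ i) / 2))) ≤ 1 / (M * κ) := by
  have hκ := h.κpos
  have hM := h.Mpos
  have hLa := h.Lapos
  have hD := h.Dpos
  have hκR : (0 : ℝ) < κ := by exact_mod_cast hκ
  have hMR : (0 : ℝ) < M := by exact_mod_cast hM
  have hLaR : (0 : ℝ) < La := by exact_mod_cast hLa
  have hDR : (0 : ℝ) < D := by exact_mod_cast hD
  have hκ100 : (2 : ℝ) ^ 100 ≤ κ := by exact_mod_cast h.κ100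
  have hLa100 : (2 : ℝ) ^ 100 ≤ La := by exact_mod_cast h.La100
  have hDκ : (D : ℝ) ≤ κ := by exact_mod_cast h.Dκ
  have hiR : (2 : ℝ) ^ i ≤ (κ : ℝ) ^ 40 := by exact_mod_cast hi
  have hi0 : (0 : ℝ) < (2 : ℝ) ^ i := by positivity
  have hκ1 : (1 : ℝ) ≤ κ := le_trans (by norm_num) hκ100
  have hLa1 : (1 : ℝ) ≤ La := le_trans (by norm_num) hLa100
  -- `u₀ = La m`, `r = La c`
  obtain ⟨m, hm⟩ := h.dvd_D (a := 40) (by norm_num)
  obtain ⟨c, hc⟩ := h.dvd_i hi
  have hu0 : La * M / (D * κ ^ 40) = La * m := by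
    have h1 : La * M = (D * κ ^ 40) * (La * m) := by
      rw [hm]
      ring
    rw [h1, Nat.mul_div_cancel_left _ (by positivity)]
  have hr0 : La * M / (κ * 2 ^ i) = La * c := by
    have h1 : La * M = (κ * 2 ^ i) * (La * c) := by
      rw [hc]
      ring
    rw [h1, Nat.mul_div_cancel_left _ (by positivity)]
  have hmpos : 0 < m := by
    rcases Nat.eq_zero_or_pos m with h0 | h0
    · rw [h0, mul_zero] at hm
      omega
    · exact h0
  have hcpos : 0 < c := by
    rcases Nat.eq_zero_or_pos c with h0 | h0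
    · rw [h0, mul_zero] at hc
      omega
    · exact h0
  have hmR : (0 : ℝ) < m := by exact_mod_cast hmpos
  have hcR : (0 : ℝ) < c := by exact_mod_cast hcpos
  have hMm : (M : ℝ) = D * (κ : ℝ) ^ 40 * m := by exact_mod_cast hm
  have hMc : (M : ℝ) = κ * (2 : ℝ) ^ i * c := by exact_mod_cast hc
  rw [hu0, hr0]
  set r : ℕ := La * c with hr
  set u : ℕ := La * m with hu
  have hrpos : 0 < r := by positivity
  have hupos : 0 < u := by positivity
  have hrR : (r : ℝ) = La * c := by rw [hr]; push_cast; ring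
  have huR : (u : ℝ) = La * m := by rw [hu]; push_cast; ring
  have hrR0 : (0 : ℝ) < r := by exact_mod_cast hrpos
  have huR0 : (0 : ℝ) < u := by exact_mod_cast hupos
  -- first binomial
  have c1 : ((M.choose r : ℕ) : ℝ) ≤ ((κ : ℝ) ^ 42) ^ r := by
    refine (choose_le_pow _ _ hrpos).trans ?_
    apply pow_le_pow_left₀ (by positivity)
    rw [div_le_iff₀ hrR0, hrR]
    have e1 : 3 * (M : ℝ) ≤ (La * κ) * M := by
      apply mul_le_mul_of_nonneg_right _ hMR.le
      have : (3 : ℝ) ≤ La := le_trans (by norm_num) hLa100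
      nlinarith
    have e2 : (M : ℝ) ≤ (κ : ℝ) ^ 41 * c := by
      rw [hMc]
      have : (κ : ℝ) * 2 ^ i * c = (κ * c) * 2 ^ i := by ring
      rw [this]
      calc (κ * c : ℝ) * 2 ^ i ≤ (κ * c) * (κ : ℝ) ^ 40 :=
            mul_le_mul_of_nonneg_left hiR (by positivity)
        _ = (κ : ℝ) ^ 41 * c := by ring
    calc 3 * (M : ℝ) ≤ (La * κ) * M := e1
      _ ≤ (La * κ) * ((κ : ℝ) ^ 41 * c) := mul_le_mul_of_nonneg_left e2 (by positivity)
      _ = (κ : ℝ) ^ 42 * (La * c) := by ring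
  -- second binomial
  have c2 : ((N.choose u : ℕ) : ℝ) ≤ ((κ : ℝ) ^ 142) ^ u := by
    refine (choose_le_pow _ _ hupos).trans ?_
    apply pow_le_pow_left₀ (by positivity)
    rw [div_le_iff₀ huR0, huR]
    have hNR : (N : ℝ) ≤ 2 * M * (κ : ℝ) ^ 100 := by exact_mod_cast hN
    have e4 : (6 : ℝ) ≤ La := le_trans (by norm_num) hLa100
    have e5 : (D : ℝ) ≤ (κ : ℝ) ^ 2 := by nlinarith
    calc 3 * (N : ℝ) ≤ 3 * (2 * M * (κ : ℝ) ^ 100) :=
          mul_le_mul_of_nonneg_left hNR (by norm_num)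
      _ = ((κ : ℝ) ^ 140 * m) * (6 * D) := by rw [hMm]; ring
      _ ≤ ((κ : ℝ) ^ 140 * m) * (La * (κ : ℝ) ^ 2) :=
          mul_le_mul_of_nonneg_left (mul_le_mul e4 e5 hDR.le hLaR.le) (by positivity)
      _ = (κ : ℝ) ^ 142 * (La * m) := by ring
  have hlog := Claim1U_log hκ100
  have hlogpos : 0 < Real.log κ := Real.log_pos (lt_of_lt_of_le (by norm_num) hκ100)
  have p1 : ((κ : ℝ) ^ 42) ^ r = Real.exp ((42 * r) * Real.log κ) := by
    rw [← pow_mul, ← Real.exp_log (pow_pos hκR _), Real.log_pow]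
    congr 1
    push_cast
    ring
  have p2 : ((κ : ℝ) ^ 142) ^ u = Real.exp ((142 * u) * Real.log κ) := by
    rw [← pow_mul, ← Real.exp_log (pow_pos hκR _), Real.log_pow]
    congr 1
    push_cast
    ring
  have p3 : (1 : ℝ) / (M * κ) = Real.exp (-(Real.log M + Real.log κ)) := by
    rw [Real.exp_neg, Real.exp_add, Real.exp_log hMR, Real.exp_log hκR, one_div]
  -- the exponent
  set A : ℝ := m * (κ : ℝ) ^ 43 / 2 ^ i with hA
  have hE : (u : ℝ) * ((La : ℝ) * (κ : ℝ) ^ 43 / 2 ^ i) / 2 = La * La * A / 2 := by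
    rw [huR, hA]
    ring
  have hA1 : (m : ℝ) * (κ : ℝ) ^ 3 ≤ A := by
    rw [hA, le_div_iff₀ hi0]
    calc (m : ℝ) * (κ : ℝ) ^ 3 * 2 ^ i ≤ (m : ℝ) * (κ : ℝ) ^ 3 * (κ : ℝ) ^ 40 :=
          mul_le_mul_of_nonneg_left hiR (by positivity)
      _ = m * (κ : ℝ) ^ 43 := by ring
  have hA2 : (c : ℝ) * (κ : ℝ) ^ 3 ≤ A := by
    rw [hA, le_div_iff₀ hi0]
    have e1 : (c : ℝ) * (κ : ℝ) ^ 3 * 2 ^ i = (κ : ℝ) ^ 2 * (κ * 2 ^ i * c) := by ring
    rw [e1, ← hMc, hMm]
    have e2 : (κ : ℝ) ^ 2 * (D * (κ : ℝ) ^ 40 * m) = ((κ : ℝ) ^ 42 * m) * D := by ring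
    have e3 : (m : ℝ) * (κ : ℝ) ^ 43 = ((κ : ℝ) ^ 42 * m) * κ := by ring
    rw [e2, e3]
    exact mul_le_mul_of_nonneg_left hDκ (by positivity)
  have hlogM : Real.log M ≤ 2 * u := by
    have h2 : Real.log M = 2 * Real.log (Real.sqrt M) := by
      rw [Real.log_sqrt hMR.le]
      ring
    have h1 : (0 : ℝ) < Real.sqrt M := Real.sqrt_pos.2 hMR
    have h3 : Real.log (Real.sqrt M) ≤ Real.sqrt M - 1 := Real.log_le_sub_one_of_pos h1
    have h4 : (κ : ℝ) ^ 100 ≤ Real.sqrt M := by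
      apply Real.le_sqrt_of_sq_le
      rw [← pow_mul]
      exact_mod_cast h.κM
    have h5 : (M : ℝ) = Real.sqrt M * Real.sqrt M := (Real.mul_self_sqrt hMR.le).symm
    -- sqrt M * κ^100 ≤ M = D κ^40 m ≤ κ^41 m
    have h6 : Real.sqrt M * (κ : ℝ) ^ 100 ≤ M := by
      calc Real.sqrt M * (κ : ℝ) ^ 100 ≤ Real.sqrt M * Real.sqrt M :=
            mul_le_mul_of_nonneg_left h4 h1.le
        _ = M := Real.mul_self_sqrt hMR.le
    have h7 : (M : ℝ) ≤ m * (κ : ℝ) ^ 100 := by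
      rw [hMm]
      have e1 : (D : ℝ) * (κ : ℝ) ^ 40 * m = m * (D * (κ : ℝ) ^ 40) := by ring
      rw [e1]
      apply mul_le_mul_of_nonneg_left _ hmR.le
      calc (D : ℝ) * (κ : ℝ) ^ 40 ≤ κ * (κ : ℝ) ^ 40 :=
            mul_le_mul_of_nonneg_right hDκ (by positivity)
        _ = (κ : ℝ) ^ 41 := by ring
        _ ≤ (κ : ℝ) ^ 100 := pow_le_pow_right₀ hκ1 (by norm_num)
    have h8 : Real.sqrt M ≤ m := le_of_mul_le_mul_right (h6.trans h7) (by positivity)
    have h9 : (m : ℝ) ≤ u := by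
      rw [huR]
      nlinarith
    linarith
  have hfin : (42 * r) * Real.log κ + (142 * u) * Real.log κ + Real.log M + Real.log κ ≤
      La * La * A / 2 := by
    have hu1 : (1 : ℝ) ≤ u := by exact_mod_cast hupos
    have hK3 : (κ : ℝ) ≤ (κ : ℝ) ^ 3 := by
      calc (κ : ℝ) = (κ : ℝ) ^ 1 := (pow_one _).symm
        _ ≤ (κ : ℝ) ^ 3 := pow_le_pow_right₀ hκ1 (by norm_num)
    have q1 : (42 * r : ℝ) * Real.log κ ≤ r * κ := by nlinarith
    have q2 : (142 * u : ℝ) * Real.log κ + Real.log κ ≤ u * κ := by nlinarith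
    have q3 : (2 : ℝ) * u ≤ u * κ := by
      have : (2 : ℝ) ≤ κ := le_trans (by norm_num) hκ100
      nlinarith
    have q4 : (r : ℝ) * κ ≤ La * (La * A) / 4 := by
      rw [hrR]
      have e1 : (c : ℝ) * κ ≤ A :=
        (mul_le_mul_of_nonneg_left hK3 hcR.le).trans hA2
      have e2 : (c : ℝ) * κ * 4 ≤ A * La := by
        apply mul_le_mul e1 _ (by norm_num) ((by positivity : (0 : ℝ) ≤ c * κ).trans e1)
        exact le_trans (by norm_num) hLa100
      have e3 : (La : ℝ) * (c * κ * 4) ≤ La * (A * La) := mul_le_mul_of_nonneg_left e2 hLaR.le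
      nlinarith
    have q5 : (u : ℝ) * κ * 2 ≤ La * (La * A) / 4 := by
      rw [huR]
      have e1 : (m : ℝ) * κ ≤ A :=
        (mul_le_mul_of_nonneg_left hK3 hmR.le).trans hA1
      have e2 : (m : ℝ) * κ * 8 ≤ A * La := by
        apply mul_le_mul e1 _ (by norm_num) ((by positivity : (0 : ℝ) ≤ m * κ).trans e1)
        exact le_trans (by norm_num) hLa100
      have e3 : (La : ℝ) * (m * κ * 8) ≤ La * (A * La) := mul_le_mul_of_nonneg_left e2 hLaR.le
      nlinarith
    nlinarith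
  rw [hE, p3]
  calc _ ≤ Real.exp ((42 * r) * Real.log κ) * (Real.exp ((142 * u) * Real.log κ) *
        Real.exp (-(La * La * A / 2))) := by
        rw [← p1, ← p2]
        apply mul_le_mul c1 _ (by positivity) (by positivity)
        exact mul_le_mul_of_nonneg_right c2 (Real.exp_pos _).le
    _ = Real.exp ((42 * r) * Real.log κ + ((142 * u) * Real.log κ + -(La * La * A / 2))) := by
        rw [← Real.exp_add, ← Real.exp_add]
    _ ≤ Real.exp (-(Real.log M + Real.log κ)) := by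
        apply Real.exp_le_exp.2
        linarith

/-- Union bound over `i`, `R`, `U` with `U.card = u₀ = La * M / (D * κ ^ 40)` (a larger bad `U`
contains one of this size). Counts: `choose_le_pow` for `R` (`M.choose r`, `3 M / r ≤ κ^42`) and
for `U` (at most `2 M κ^100` pairs (fine box, unit), `3 * 2 M κ^100 / u₀ ≤ κ^142`);
`u₀ * (La κ^43 / 2^i)/2 ≥ r La κ^3 / 2` and `≥ u₀ La κ^3 / 2`. -/
theorem c1R_prob {M κ La D : ℕ} (h : LP M κ La D) :
    av (fun b : (V M → Fin M → Fin M) × (V M → Fin M → Fin M) =>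
      open Classical in if C1R M κ La D b.1 b.2 then (0 : ℝ) else 1) ≤ 1 / M := by
  classical
  have hκ := h.κpos
  have hM := h.Mpos
  have hκR : (0 : ℝ) < κ := by exact_mod_cast hκ
  have hMR : (0 : ℝ) < M := by exact_mod_cast hM
  obtain ⟨c, hc⟩ := h.hκ
  set u₀ := La * M / (D * κ ^ 40) with hu₀
  -- all pairs (fine box, unit)
  set W : Finset (V M × ℕ) := ((univ : Finset (V M)) ×ˢ Finset.range (2 * M / κ ^ 60)).filter
    fun p => p.1.1.val < κ ^ 80 ∧ p.1.2.val < κ ^ 80 with hW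
  have hWmem : ∀ p : V M × ℕ, p ∈ W ↔
      (p.1.1.val < κ ^ 80 ∧ p.1.2.val < κ ^ 80 ∧ p.2 < 2 * M / κ ^ 60) := by
    intro p
    rw [hW, Finset.mem_filter, Finset.mem_product, Finset.mem_range]
    constructor
    · rintro ⟨⟨-, h1⟩, h2, h3⟩
      exact ⟨h2, h3, h1⟩
    · rintro ⟨h2, h3, h1⟩
      exact ⟨⟨Finset.mem_univ _, h1⟩, h2, h3⟩
  have hWcard : W.card ≤ 2 * M * κ ^ 100 := by
    have h1 : W.card ≤ ((Finset.range (κ ^ 80) ×ˢ Finset.range (κ ^ 80)) ×ˢ
        Finset.range (2 * M / κ ^ 60)).card := by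
      apply Finset.card_le_card_of_injOn (fun p : V M × ℕ => ((p.1.1.val, p.1.2.val), p.2))
      · intro p hp
        obtain ⟨h2, h3, h4⟩ := (hWmem p).1 (Finset.mem_coe.1 hp)
        simp only [Finset.coe_product, Set.mem_prod, Finset.coe_range, Set.mem_Iio]
        exact ⟨⟨h2, h3⟩, h4⟩
      · rintro ⟨⟨x, y⟩, u⟩ - ⟨⟨x', y'⟩, u'⟩ - h2
        simp only [Prod.mk.injEq] at h2
        obtain ⟨⟨h3, h4⟩, h5⟩ := h2
        rw [Fin.ext h3, Fin.ext h4, h5]
    rw [Finset.card_product, Finset.card_product, Finset.card_range, Finset.card_range] at h1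
    refine h1.trans ?_
    have h2 : κ ^ 80 * κ ^ 80 * (2 * M / κ ^ 60) = κ ^ 100 * (κ ^ 60 * (2 * M / κ ^ 60)) := by
      ring
    rw [h2, mul_comm (2 * M) (κ ^ 100)]
    exact Nat.mul_le_mul_left _ (Nat.mul_div_le _ _)
  -- the indices
  have hi_iff : ∀ i : ℕ, i ∈ Finset.range (40 * c + 1) ↔ 2 ^ i ≤ κ ^ 40 := by
    intro i
    rw [Finset.mem_range, hc, ← pow_mul, Nat.pow_le_pow_iff_right (by norm_num)]
    omega
  set UU : Finset (Finset (V M × ℕ)) := (W.powersetCard u₀).filter fun U =>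
    Set.InjOn (fun p : V M × ℕ => (bx (κ ^ 40) p.1, p.2)) (U : Set (V M × ℕ)) with hUU
  have hpt : ∀ b : (V M → Fin M → Fin M) × (V M → Fin M → Fin M),
      (if C1R M κ La D b.1 b.2 then (0 : ℝ) else 1) ≤
      ∑ i ∈ Finset.range (40 * c + 1),
        ∑ R ∈ (univ : Finset (Fin M)).powersetCard (La * M / (κ * 2 ^ i)), ∑ U ∈ UU,
        (if ∀ p ∈ U, (R.filter fun ρ => eff M κ b.1 b.2 p.1 p.2 ρ).card * 2 ^ i < κ ^ 43
          then (1 : ℝ) else 0) := by
    intro b
    have hnn : ∀ i ∈ Finset.range (40 * c + 1),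
        (0 : ℝ) ≤ ∑ R ∈ (univ : Finset (Fin M)).powersetCard (La * M / (κ * 2 ^ i)), ∑ U ∈ UU,
        (if ∀ p ∈ U, (R.filter fun ρ => eff M κ b.1 b.2 p.1 p.2 ρ).card * 2 ^ i < κ ^ 43
          then (1 : ℝ) else 0) := by
      intro i _
      refine Finset.sum_nonneg fun R _ => Finset.sum_nonneg fun U _ => ?_
      split_ifs <;> norm_num
    by_cases hb : C1R M κ La D b.1 b.2
    · rw [if_pos hb]
      exact Finset.sum_nonneg hnn
    · rw [if_neg hb]
      unfold C1R at hb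
      push Not at hb
      obtain ⟨i, hi, R, hR, U, hU, hinj, hbad, hcard⟩ := hb
      obtain ⟨U', hU'U, hU'c⟩ := Finset.exists_subset_card_eq hcard
      have hU'mem : U' ∈ UU := by
        rw [hUU, Finset.mem_filter, Finset.mem_powersetCard]
        refine ⟨⟨fun p hp => (hWmem p).2 (hU p (hU'U hp)), hU'c⟩, ?_⟩
        exact hinj.mono (Finset.coe_subset.2 hU'U)
      have hRmem : R ∈ (univ : Finset (Fin M)).powersetCard (La * M / (κ * 2 ^ i)) := by
        rw [Finset.mem_powersetCard]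
        exact ⟨Finset.subset_univ _, hR⟩
      have t1 := Finset.single_le_sum hnn ((hi_iff i).2 hi)
      refine le_trans ?_ t1
      have t2 := Finset.single_le_sum (f := fun R => ∑ U ∈ UU,
        (if ∀ p ∈ U, (R.filter fun ρ => eff M κ b.1 b.2 p.1 p.2 ρ).card * 2 ^ i < κ ^ 43
          then (1 : ℝ) else 0)) (fun R _ => Finset.sum_nonneg fun U _ => by
            split_ifs <;> norm_num) hRmem
      refine le_trans ?_ t2
      have t3 := Finset.single_le_sum (f := fun U : Finset (V M × ℕ) =>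
        (if ∀ p ∈ U, (R.filter fun ρ => eff M κ b.1 b.2 p.1 p.2 ρ).card * 2 ^ i < κ ^ 43
          then (1 : ℝ) else 0)) (fun U _ => by
            split_ifs <;> norm_num) hU'mem
      refine le_trans ?_ t3
      rw [if_pos fun p hp => hbad p (hU'U hp)]
  refine (av_mono hpt).trans ?_
  rw [av_sum]
  have hterm : ∀ i ∈ Finset.range (40 * c + 1),
      av (fun b : (V M → Fin M → Fin M) × (V M → Fin M → Fin M) =>
        ∑ R ∈ (univ : Finset (Fin M)).powersetCard (La * M / (κ * 2 ^ i)), ∑ U ∈ UU,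
        (if ∀ p ∈ U, (R.filter fun ρ => eff M κ b.1 b.2 p.1 p.2 ρ).card * 2 ^ i < κ ^ 43
          then (1 : ℝ) else 0)) ≤ 1 / (M * κ) := by
    intro i hi
    have hi' := (hi_iff i).1 hi
    rw [av_sum]
    have h1 : ∀ R ∈ (univ : Finset (Fin M)).powersetCard (La * M / (κ * 2 ^ i)),
        av (fun b : (V M → Fin M → Fin M) × (V M → Fin M → Fin M) => ∑ U ∈ UU,
        (if ∀ p ∈ U, (R.filter fun ρ => eff M κ b.1 b.2 p.1 p.2 ρ).card * 2 ^ i < κ ^ 43
          then (1 : ℝ) else 0)) ≤ (W.card.choose u₀ : ℝ) *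
        Real.exp (-((u₀ : ℝ) * ((La : ℝ) * (κ : ℝ) ^ 43 / 2 ^ i) / 2)) := by
      intro R hR
      rw [av_sum]
      have h2 : ∀ U ∈ UU, av (fun b : (V M → Fin M → Fin M) × (V M → Fin M → Fin M) =>
          (if ∀ p ∈ U, (R.filter fun ρ => eff M κ b.1 b.2 p.1 p.2 ρ).card * 2 ^ i < κ ^ 43
            then (1 : ℝ) else 0)) ≤
          Real.exp (-((u₀ : ℝ) * ((La : ℝ) * (κ : ℝ) ^ 43 / 2 ^ i) / 2)) := by
        intro U hU
        rw [hUU, Finset.mem_filter, Finset.mem_powersetCard] at hU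
        obtain ⟨⟨h3, h4⟩, h5⟩ := hU
        have h6 := c1_fixed h i hi' R (Finset.mem_powersetCard.1 hR).2 U
          (fun p hp => (hWmem p).1 (h3 hp)) h5
        rw [h4] at h6
        exact h6
      refine (Finset.sum_le_card_nsmul _ _ _ h2).trans ?_
      rw [nsmul_eq_mul]
      apply mul_le_mul_of_nonneg_right _ (Real.exp_pos _).le
      have h7 : UU.card ≤ W.card.choose u₀ := by
        rw [← Finset.card_powersetCard]
        exact Finset.card_le_card (Finset.filter_subset _ _)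
      exact_mod_cast h7
    refine (Finset.sum_le_card_nsmul _ _ _ h1).trans ?_
    rw [nsmul_eq_mul, Finset.card_powersetCard, Finset.card_univ, Fintype.card_fin]
    exact Claim1U_num h i hi' W.card hWcard
  refine (Finset.sum_le_card_nsmul _ _ _ hterm).trans ?_
  rw [nsmul_eq_mul, Finset.card_range]
  have h8 : ((40 * c + 1 : ℕ) : ℝ) ≤ κ := by
    have h9 : 40 * c + 1 ≤ κ := by
      have h10 : 100 ≤ c := by
        have := h.κ100
        rw [hc, Nat.pow_le_pow_iff_right (by norm_num)] at this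
        exact this
      rw [hc]
      have h11 : ∀ n : ℕ, 40 * (100 + n) + 1 ≤ 2 ^ (100 + n) := by
        intro n
        induction n with
        | zero => norm_num
        | succ n ih =>
          have : 2 ^ (100 + (n + 1)) = 2 * 2 ^ (100 + n) := by ring
          omega
      have h12 := h11 (c - 100)
      have h13 : 100 + (c - 100) = c := by omega
      rw [h13] at h12
      exact h12
    exact_mod_cast h9
  calc ((40 * c + 1 : ℕ) : ℝ) * (1 / (M * κ)) ≤ κ * (1 / (M * κ)) :=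
        mul_le_mul_of_nonneg_right h8 (by positivity)
    _ = 1 / M := by
        field_simp

end Pool.Agent.TK
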