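import Pool.Agent.TK.Num
import Pool.Agent.TH.Claim2

/-! # Project TK: Claim 2 in the concrete form, from `Pool.Agent.TH.claim2` -/

namespace Pool.Agent.TK

open Finset

theorem Claim2U_pow_le {M κ La D : ℕ} (h : LP M κ La D) {a : ℕ} (ha : a ≤ 200) :
    κ ^ a ≤ M := Nat.le_of_dvd h.Mpos (h.dvd ha)

theorem Claim2U_log {κ : ℝ} (hκ : (2 : ℝ) ^ 100 ≤ κ) : 143 * Real.log κ < κ := by
  have h0 : (0 : ℝ) < κ := lt_of_lt_of_le (by positivity) hκ
  have h1 : (0 : ℝ) < Real.sqrt κ := Real.sqrt_pos.2 h0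
  have h2 : Real.log κ = 2 * Real.log (Real.sqrt κ) := by
    rw [Real.log_sqrt h0.le]
    ring
  have h3 : Real.log (Real.sqrt κ) ≤ Real.sqrt κ - 1 := Real.log_le_sub_one_of_pos h1
  have h4 : (2 : ℝ) ^ 50 ≤ Real.sqrt κ := by
    apply Real.le_sqrt_of_sq_le
    rw [← pow_mul]
    exact hκ
  have h5 : κ = Real.sqrt κ * Real.sqrt κ := (Real.mul_self_sqrt h0.le).symm
  have h6 : (286 : ℝ) ≤ Real.sqrt κ := le_trans (by norm_num) h4
  rw [h2]
  nlinarith

/-- the numbers of Claim 2 -/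
theorem Claim2U_num {M κ La D : ℕ} (h : LP M κ La D) :
    (((κ ^ 40 * M).choose (2 * La * M) : ℕ) : ℝ) *
      (((κ ^ 80 * κ ^ 80 * (2 * M / κ ^ 20 * κ ^ 2)).choose (La * M * κ ^ 2 / D) : ℕ) : ℝ) *
      Real.exp (-(((La * M * κ ^ 2 / D : ℕ) : ℝ) * ((κ ^ 43 : ℕ) : ℝ) / ((κ ^ 42 : ℕ) : ℝ)))
      < 1 := by
  have hκ := h.κpos
  have hM := h.Mpos
  have hLa := h.Lapos
  have hD := h.Dpos
  have hκR : (0 : ℝ) < κ := by exact_mod_cast hκ
  have hMR : (0 : ℝ) < M := by exact_mod_cast hM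
  have hLaR : (0 : ℝ) < La := by exact_mod_cast hLa
  have hDR : (0 : ℝ) < D := by exact_mod_cast hD
  have hκ100 : (2 : ℝ) ^ 100 ≤ κ := by exact_mod_cast h.κ100
  have hLa100 : (2 : ℝ) ^ 100 ≤ La := by exact_mod_cast h.La100
  have hDκ : (D : ℝ) ≤ κ := by exact_mod_cast h.Dκ
  -- s0
  have hDM : D ∣ M := by
    have := h.dvd_D (a := 0) (by norm_num)
    rwa [pow_zero, mul_one] at this
  obtain ⟨m, hm⟩ := hDM
  have hs0 : La * M * κ ^ 2 / D = La * m * κ ^ 2 := by
    have : La * M * κ ^ 2 = D * (La * m * κ ^ 2) := by rw [hm]; ring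
    rw [this, Nat.mul_div_cancel_left _ hD]
  have hmpos : 0 < m := by
    rcases Nat.eq_zero_or_pos m with h0 | h0
    · rw [h0, mul_zero] at hm
      omega
    · exact h0
  have hmR : (0 : ℝ) < m := by exact_mod_cast hmpos
  have hmM : (M : ℝ) = D * m := by exact_mod_cast hm
  set s : ℕ := La * m * κ ^ 2 with hs
  have hspos : 0 < s := by positivity
  have hsR : (s : ℝ) = La * m * κ ^ 2 := by rw [hs]; push_cast; ring
  have hsR0 : (0 : ℝ) < s := by exact_mod_cast hspos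
  obtain ⟨m', hm'⟩ := h.dvd (a := 20) (by norm_num)
  have h2M : 2 * M / κ ^ 20 = 2 * m' := by
    have : 2 * M = κ ^ 20 * (2 * m') := by rw [hm']; ring
    rw [this, Nat.mul_div_cancel_left _ (by positivity)]
  have hm'R : (M : ℝ) = (κ : ℝ) ^ 20 * m' := by
    have : (M : ℝ) = ((κ ^ 20 * m' : ℕ) : ℝ) := by exact_mod_cast hm'
    rw [this]; push_cast; ring
  rw [hs0, h2M]
  -- first binomial
  have c1 : (((κ ^ 40 * M).choose (2 * La * M) : ℕ) : ℝ) ≤ ((κ : ℝ) ^ 40) ^ (2 * La * M) := by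
    refine (choose_le_pow _ _ (by positivity)).trans ?_
    apply pow_le_pow_left₀ (by positivity)
    rw [div_le_iff₀ (by positivity)]
    push_cast
    have : (3 : ℝ) ≤ 2 * La := by
      have : (2 : ℝ) ≤ La := le_trans (by norm_num) hLa100
      linarith
    nlinarith [mul_pos (pow_pos hκR 40) hMR]
  -- second binomial
  have c2 : (((κ ^ 80 * κ ^ 80 * (2 * m' * κ ^ 2)).choose s : ℕ) : ℝ) ≤ ((κ : ℝ) ^ 142) ^ s := by
    refine (choose_le_pow _ _ hspos).trans ?_
    apply pow_le_pow_left₀ (by positivity)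
    rw [div_le_iff₀ hsR0, hsR]
    push_cast
    -- 6 κ^162 m' ≤ κ^142 La m κ^2,  M = κ^20 m' = D m
    have e1 : (3 : ℝ) * ((κ : ℝ) ^ 80 * (κ : ℝ) ^ 80 * (2 * (m' : ℝ) * (κ : ℝ) ^ 2)) =
        6 * (κ : ℝ) ^ 142 * ((κ : ℝ) ^ 20 * m') := by ring
    rw [e1, ← hm'R, hmM]
    have e2 : (κ : ℝ) ^ 142 * ((La : ℝ) * m * (κ : ℝ) ^ 2) =
        ((κ : ℝ) ^ 142 * m) * (La * (κ : ℝ) ^ 2) := by ring
    have e3 : 6 * (κ : ℝ) ^ 142 * ((D : ℝ) * m) = ((κ : ℝ) ^ 142 * m) * (6 * D) := by ring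
    rw [e2, e3]
    apply mul_le_mul_of_nonneg_left _ (by positivity)
    have e4 : (6 : ℝ) ≤ La := le_trans (by norm_num) hLa100
    have e5 : (D : ℝ) ≤ (κ : ℝ) ^ 2 := by
      have : (1 : ℝ) ≤ κ := le_trans (by norm_num) hκ100
      nlinarith
    exact mul_le_mul e4 e5 hDR.le hLaR.le
  -- exponential
  have e0 : ((s : ℝ) * ((κ ^ 43 : ℕ) : ℝ) / ((κ ^ 42 : ℕ) : ℝ)) = s * κ := by
    push_cast
    field_simp
  rw [e0]
  have hlog := Claim2U_log hκ100
  have hlogpos : 0 < Real.log κ := Real.log_pos (lt_of_lt_of_le (by norm_num) hκ100)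
  have p1 : ((κ : ℝ) ^ 40) ^ (2 * La * M) = Real.exp ((80 * La * M) * Real.log κ) := by
    rw [← pow_mul, ← Real.exp_log (pow_pos hκR _), Real.log_pow]
    congr 1
    push_cast
    ring
  have p2 : ((κ : ℝ) ^ 142) ^ s = Real.exp ((142 * s) * Real.log κ) := by
    rw [← pow_mul, ← Real.exp_log (pow_pos hκR _), Real.log_pow]
    congr 1
    push_cast
    ring
  have hfin : (80 * La * M) * Real.log κ + (142 * s) * Real.log κ - s * κ < 0 := by
    have q1 : (80 : ℝ) * La * M ≤ s := by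
      rw [hsR, hmM]
      have q2 : (80 : ℝ) * D ≤ (κ : ℝ) ^ 2 := by
        have : (80 : ℝ) ≤ κ := le_trans (by norm_num) hκ100
        nlinarith
      have q3 : (80 : ℝ) * La * (D * m) = (La * m) * (80 * D) := by ring
      rw [q3]
      exact mul_le_mul_of_nonneg_left q2 (by positivity)
    have q4 : (80 : ℝ) * La * M * Real.log κ ≤ s * Real.log κ :=
      mul_le_mul_of_nonneg_right q1 hlogpos.le
    have q5 : (s : ℝ) * (143 * Real.log κ) < s * κ := mul_lt_mul_of_pos_left hlog hsR0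
    nlinarith
  calc _ ≤ Real.exp ((80 * La * M) * Real.log κ) * Real.exp ((142 * s) * Real.log κ) *
        Real.exp (-((s : ℝ) * κ)) := by
        apply mul_le_mul_of_nonneg_right _ (Real.exp_pos _).le
        rw [← p1, ← p2]
        exact mul_le_mul c1 c2 (Nat.cast_nonneg _) (by positivity)
    _ = Real.exp ((80 * La * M) * Real.log κ + (142 * s) * Real.log κ - s * κ) := by
        rw [← Real.exp_add, ← Real.exp_add]
        congr 1
    _ < 1 := by
        rw [Real.exp_lt_one_iff]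
        exact hfin

/-- Instance of `Pool.Agent.TH.claim2` with `v0 = 2 La M` cells (`v.1 < κ^40`),
`s0 = La M κ^2 / D`, `W = κ^43`, `τ = κ^42` (at most `2 M κ^142` slots with fine boxes;
`3 * 2 M κ^142 / s0 ≤ κ^142`, `choose_le_pow`). -/
theorem claim2 {M κ La D : ℕ} (h : LP M κ La D) (b b' : V M → Fin M → Fin M) :
    ∃ T : V M → V M → ℕ, (∀ X v, T X v < κ ^ 42) ∧ C2 M κ La D b b' T := by
  classical
  have hκ := h.κpos
  have h40 : κ ^ 40 ≤ M := Claim2U_pow_le h (by norm_num)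
  have h80 : κ ^ 80 ≤ M := Claim2U_pow_le h (by norm_num)
  have h42 : 0 < κ ^ 42 := by positivity
  -- types
  let Vt : Type := Fin (κ ^ 40) × Fin M
  let Ut : Type := (Fin (κ ^ 80) × Fin (κ ^ 80)) × Fin (2 * M / κ ^ 20) × Fin (κ ^ 2)
  let It : Type := V M × Vt
  let ev : Vt → V M := fun w => (Fin.castLE h40 w.1, w.2)
  let fx : Ut → V M := fun u => (Fin.castLE h80 u.1.1, Fin.castLE h80 u.1.2)
  let un : Ut → ℕ := fun u => u.2.1.val / κ ^ 42 * κ ^ 2 + u.2.2.val
  let cell : It → Vt := Prod.snd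
  let slot : Ut → V M × ℕ × ℕ := fun u => (bx (κ ^ 40) (fx u), u.2.1.val, u.2.2.val)
  let off : Ut → Fin (κ ^ 42) := fun u => ⟨u.2.1.val % κ ^ 42, Nat.mod_lt _ h42⟩
  let ef : Ut → Finset It := fun u => univ.filter
    (fun i : It => i.1 = bx (κ ^ 40) (fx u) ∧ eff M κ b b' (fx u) (un u) i.2.2)
  have hev : Function.Injective ev := by
    intro w w' hw
    have h1 := congrArg Prod.fst hw
    have h2 := congrArg Prod.snd hw
    exact Prod.ext (Fin.castLE_injective h40 h1) h2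
  have hmem : ∀ (u : Ut) (i : It), i ∈ ef u ↔
      i.1 = bx (κ ^ 40) (fx u) ∧ eff M κ b b' (fx u) (un u) i.2.2 := by
    intro u i
    simp only [ef, mem_filter, mem_univ, true_and]
  have hdist : ∀ u u', slot u ≠ slot u' → ∀ i, i ∈ ef u → i ∈ ef u' → off u ≠ off u' := by
    intro u u' hs i hi hi' ho
    rw [hmem] at hi hi'
    apply hs
    have e1 : bx (κ ^ 40) (fx u) = bx (κ ^ 40) (fx u') := hi.1.symm.trans hi'.1
    have e2 : un u = un u' := by
      rw [← hi.2.1, ← hi'.2.1, e1]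
    have e3 : u.2.1.val % κ ^ 42 = u'.2.1.val % κ ^ 42 := congrArg Fin.val ho
    have e4 : u.2.1.val / κ ^ 42 * κ ^ 2 + u.2.2.val =
        u'.2.1.val / κ ^ 42 * κ ^ 2 + u'.2.2.val := e2
    have hκ2 : 0 < κ ^ 2 := by positivity
    have e5 : u.2.1.val / κ ^ 42 = u'.2.1.val / κ ^ 42 := by
      have a1 : (u.2.1.val / κ ^ 42 * κ ^ 2 + u.2.2.val) / κ ^ 2 = u.2.1.val / κ ^ 42 := by
        rw [Nat.add_comm, Nat.add_mul_div_right _ _ hκ2, Nat.div_eq_of_lt u.2.2.2, Nat.zero_add]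
      have a2 : (u'.2.1.val / κ ^ 42 * κ ^ 2 + u'.2.2.val) / κ ^ 2 = u'.2.1.val / κ ^ 42 := by
        rw [Nat.add_comm, Nat.add_mul_div_right _ _ hκ2, Nat.div_eq_of_lt u'.2.2.2, Nat.zero_add]
      rw [← a1, ← a2, e4]
    have e6 : u.2.2.val = u'.2.2.val := by
      rw [e5] at e4
      omega
    have e7 : u.2.1.val = u'.2.1.val := by
      rw [← Nat.div_add_mod u.2.1.val (κ ^ 42), ← Nat.div_add_mod u'.2.1.val (κ ^ 42), e5, e3]
    exact Prod.ext e1 (Prod.ext e7 e6)
  have hcardV : Fintype.card Vt = κ ^ 40 * M := by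
    simp only [Vt, Fintype.card_prod, Fintype.card_fin]
  have hcardU : Fintype.card Ut = κ ^ 80 * κ ^ 80 * (2 * M / κ ^ 20 * κ ^ 2) := by
    simp only [Ut, Fintype.card_prod, Fintype.card_fin]
  have hnum := Claim2U_num h
  rw [← hcardV, ← hcardU] at hnum
  obtain ⟨T0, hT0⟩ := Pool.Agent.TH.claim2 (I := It) (U := Ut) (S := V M × ℕ × ℕ) (V := Vt)
    h42 cell slot off ef (2 * La * M) (La * M * κ ^ 2 / D) (κ ^ 43) hdist hnum
  refine ⟨fun X v => if hv : v.1.val < κ ^ 40 then (T0 (X, (⟨v.1.val, hv⟩, v.2))).val else 0,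
    ?_, ?_⟩
  · intro X v
    dsimp only
    split_ifs with hv
    · exact (T0 _).2
    · exact h42
  · intro Q hQ hQc S hS hinj hW hno
    by_contra hcon
    rw [not_lt] at hcon
    obtain ⟨S', hS'S, hS'c⟩ := Finset.exists_subset_card_eq hcon
    -- patterns
    set VV : Finset Vt := univ.filter (fun w => ev w ∈ Q) with hVV
    have hVVc : VV.card = 2 * La * M := by
      rw [← hQc]
      apply Finset.card_bij (fun w _ => ev w)
      · intro w hw
        exact (mem_filter.1 hw).2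
      · intro w _ w' _ hww
        exact hev hww
      · intro v hv
        refine ⟨(⟨v.1.val, hQ v hv⟩, v.2), ?_, ?_⟩
        · rw [hVV, mem_filter]
          refine ⟨mem_univ _, ?_⟩
          exact hv
        · rfl
    let tr : Ut → V M × ℕ × ℕ := fun u => (fx u, u.2.1.val, u.2.2.val)
    have htr : Function.Injective tr := by
      intro u u' hu
      have a1 : fx u = fx u' := congrArg Prod.fst hu
      have a2 : u.2.1.val = u'.2.1.val := congrArg (fun p : V M × ℕ × ℕ => p.2.1) hu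
      have a3 : u.2.2.val = u'.2.2.val := congrArg (fun p : V M × ℕ × ℕ => p.2.2) hu
      have a4 : u.1.1 = u'.1.1 := Fin.castLE_injective h80 (congrArg Prod.fst a1)
      have a5 : u.1.2 = u'.1.2 := Fin.castLE_injective h80 (congrArg Prod.snd a1)
      exact Prod.ext (Prod.ext a4 a5) (Prod.ext (Fin.ext a2) (Fin.ext a3))
    set Sl : Finset Ut := univ.filter (fun u => tr u ∈ S') with hSl
    have hSlc : Sl.card = La * M * κ ^ 2 / D := by
      rw [← hS'c]
      apply Finset.card_bij (fun u _ => tr u)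
      · intro u hu
        exact (mem_filter.1 hu).2
      · intro u _ u' _ huu
        exact htr huu
      · intro p hp
        obtain ⟨b1, b2, b3, b4⟩ := hS p (hS'S hp)
        refine ⟨((⟨p.1.1.val, b1⟩, ⟨p.1.2.val, b2⟩), (⟨p.2.1, b3⟩, ⟨p.2.2, b4⟩)), ?_, ?_⟩
        · rw [hSl, mem_filter]
          refine ⟨mem_univ _, ?_⟩
          exact hp
        · rfl
    have hslot : Set.InjOn slot (Sl : Set Ut) := by
      intro u hu u' hu' huu
      have m1 : tr u ∈ S' := (mem_filter.1 (Finset.mem_coe.1 hu)).2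
      have m2 : tr u' ∈ S' := (mem_filter.1 (Finset.mem_coe.1 hu')).2
      exact htr (hinj (Finset.mem_coe.2 (hS'S m1)) (Finset.mem_coe.2 (hS'S m2)) huu)
    have hWW : ∀ u ∈ Sl, κ ^ 43 ≤ ((ef u).filter (fun i => cell i ∈ VV)).card := by
      intro u hu
      have m1 : tr u ∈ S' := (mem_filter.1 hu).2
      refine (hW (tr u) (hS'S m1)).trans ?_
      apply Finset.card_le_card_of_injOn
        (fun v : V M => ((bx (κ ^ 40) (fx u),
          (if hv : v.1.val < κ ^ 40 then (⟨v.1.val, hv⟩ : Fin (κ ^ 40)) else ⟨0, by positivity⟩,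
            v.2)) : It))
      · intro v hv
        rw [Finset.mem_coe, mem_filter] at hv
        have hvQ := hQ v hv.1
        rw [Finset.mem_coe, mem_filter, hmem]
        refine ⟨⟨rfl, hv.2⟩, ?_⟩
        show _ ∈ VV
        rw [hVV, mem_filter]
        refine ⟨mem_univ _, ?_⟩
        have : ev ((if hv : v.1.val < κ ^ 40 then (⟨v.1.val, hv⟩ : Fin (κ ^ 40))
            else ⟨0, by positivity⟩), v.2) = v := by
          rw [dif_pos hvQ]
          rfl
        rw [← this] at hv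
        exact hv.1
      · intro v hv v' hv' hvv
        rw [Finset.mem_coe, mem_filter] at hv hv'
        have hvQ := hQ v hv.1
        have hvQ' := hQ v' hv'.1
        have c1 := congrArg (fun i : It => i.2.1.val) hvv
        have c2 := congrArg (fun i : It => i.2.2) hvv
        simp only [dif_pos hvQ, dif_pos hvQ'] at c1 c2
        exact Prod.ext (Fin.ext c1) c2
    obtain ⟨u, hu, i, hi, hiV, hTi⟩ := hT0 VV hVVc Sl hSlc hslot hWW
    rw [hmem] at hi
    have m1 : tr u ∈ S' := (mem_filter.1 hu).2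
    have m2 : ev i.2 ∈ Q := (mem_filter.1 hiV).2
    apply hno (tr u) (hS'S m1) (ev i.2) m2 hi.2
    have m3 : (ev i.2).1.val < κ ^ 40 := i.2.1.2
    show (if hv : (ev i.2).1.val < κ ^ 40 then
      (T0 (bx (κ ^ 40) (fx u), (⟨(ev i.2).1.val, hv⟩, (ev i.2).2))).val else 0) =
        u.2.1.val % κ ^ 42
    rw [dif_pos m3]
    have m4 : ((bx (κ ^ 40) (fx u), ((⟨(ev i.2).1.val, m3⟩ : Fin (κ ^ 40)), (ev i.2).2)) : It) =
        i := Prod.ext hi.1.symm rfl
    rw [m4, hTi]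

end Pool.Agent.TK
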