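import Mathlib

/-!
# Project TK (MP_06e2b3_co): `w(K_{n,n}) = Θ(n²)`, note 2821. Definitions.

Vertices are pairs `(column, row)` in `Fin M × Fin M`, `M = 2 ^ μ`, `n = 4 * La * M`,
`La = ka k 0 ^ 20`. Level `e` has the number `ka k e = 2 ^ (k * 2 ^ e)` (`kappa_e`),
`Lambda_e = ka k e ^ 20`, `Lambda_(e+1) = ka k e ^ 40`, `Lambda_(e+2) = ka k e ^ 80`.
-/

namespace Pool.Agent.TK

open Finset

/-- `kappa_e` -/
def ka (k e : ℕ) : ℕ := 2 ^ (k * 2 ^ e)

/-- width of the classes of scale `e`: `M / Lambda_e` -/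
def wd (M k e : ℕ) : ℕ := M / ka k e ^ 20

/-- vertices: `(column, row)` -/
abbrev V (M : ℕ) := Fin M × Fin M

/-- class of a coordinate for the width `w` -/
def cl {M : ℕ} (w : ℕ) (i : Fin M) : Fin M :=
  ⟨i.val / w, lt_of_le_of_lt (Nat.div_le_self _ _) i.2⟩

/-- row-cell: (class of the column, row) -/
def rc {M : ℕ} (w : ℕ) (v : V M) : V M := (cl w v.1, v.2)

/-- column-cell: (column, class of the row) -/
def cc {M : ℕ} (w : ℕ) (v : V M) : V M := (v.1, cl w v.2)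

/-- box: (class of the column, class of the row) -/
def bx {M : ℕ} (w : ℕ) (v : V M) : V M := (cl w v.1, cl w v.2)

/-- The hub of `x` with target index `t < 2 * w`: for `t < w` the column number `t` in the class
(width `w`) of the column of `x`, same row; for `w ≤ t` the row number `t - w` in the class of
the row of `x`, same column. -/
def hub {M : ℕ} (w : ℕ) (x : V M) (t : ℕ) : V M :=
  if t < w then (⟨(x.1.val / w * w + t) % M, Nat.mod_lt _ (Fin.pos x.1)⟩, x.2)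
  else (x.1, ⟨(x.2.val / w * w + (t - w)) % M, Nat.mod_lt _ (Fin.pos x.1)⟩)

/-- numerical hypotheses for one level: `κ = kappa_e`, `D = 2 ^ (e + 5)`, `La = Lambda_0`;
all numbers are powers of two. -/
structure LP (M κ La D : ℕ) : Prop where
  hM : ∃ μ, M = 2 ^ μ
  hκ : ∃ a, κ = 2 ^ a
  hLa : ∃ a, La = 2 ^ a
  hD : ∃ a, D = 2 ^ a
  κ100 : 2 ^ 100 ≤ κ
  κM : κ ^ 200 ≤ M
  La100 : 2 ^ 100 ≤ La
  Laκ : La ≤ κ ^ 20
  Dκ : D ≤ κ

/-- `eff M κ b b' X u ρ`: the row `ρ` is effective for the unit `u` of the box `bx (κ ^ 40) X`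
and the finer box `X`: the value of `b` at the coarse box is in the unit `u`, and the value of
`b'` at the fine box `X` is `none` (`≥ 2 M / κ ^ 32`). -/
def eff (M κ : ℕ) (b b' : V M → Fin M → Fin M) (X : V M) (u : ℕ) (ρ : Fin M) : Prop :=
  (b (bx (κ ^ 40) X) ρ).val / κ ^ 44 = u ∧ 2 * M / κ ^ 32 ≤ (b' X ρ).val

instance (M κ : ℕ) (b b' : V M → Fin M → Fin M) (X : V M) (u : ℕ) :
    DecidablePred (eff M κ b b' X u) := fun _ => by unfold eff; infer_instance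

/-- Claim 1 for one level, row form: for a set `R` of `La * M / (κ * 2 ^ i)` rows, fewer than
`u₀ = La * M / (D * κ ^ 40)` units are bad. -/
def C1R (M κ La D : ℕ) (b b' : V M → Fin M → Fin M) : Prop :=
  ∀ i : ℕ, 2 ^ i ≤ κ ^ 40 → ∀ R : Finset (Fin M), R.card = La * M / (κ * 2 ^ i) →
  ∀ U : Finset (V M × ℕ),
    (∀ p ∈ U, p.1.1.val < κ ^ 80 ∧ p.1.2.val < κ ^ 80 ∧ p.2 < 2 * M / κ ^ 60) →
    Set.InjOn (fun p : V M × ℕ => (bx (κ ^ 40) p.1, p.2)) (U : Set (V M × ℕ)) →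
    (∀ p ∈ U, (R.filter fun ρ => eff M κ b b' p.1 p.2 ρ).card * 2 ^ i < κ ^ 43) →
    U.card < La * M / (D * κ ^ 40)

/-- Claim 1 for one level: for a set `Q` of `2 * La * M` row-cells of scale `e + 1`, fewer than
`u₀` units have weight less than `κ ^ 43`. -/
def C1 (M κ La D : ℕ) (b b' : V M → Fin M → Fin M) : Prop :=
  ∀ Q : Finset (V M), (∀ v ∈ Q, v.1.val < κ ^ 40) → Q.card = 2 * La * M →
  ∀ U : Finset (V M × ℕ),
    (∀ p ∈ U, p.1.1.val < κ ^ 80 ∧ p.1.2.val < κ ^ 80 ∧ p.2 < 2 * M / κ ^ 60) →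
    Set.InjOn (fun p : V M × ℕ => (bx (κ ^ 40) p.1, p.2)) (U : Set (V M × ℕ)) →
    (∀ p ∈ U, (Q.filter fun v => eff M κ b b' p.1 p.2 v.2).card < κ ^ 43) →
    U.card < La * M / (D * κ ^ 40)

/-- Claim 2 for one level: slots are triples `(X, t, l)`: fine box, target, layer; the unit of
the slot is `t / κ ^ 42 * κ ^ 2 + l`. Fewer than `s₀ = La * M * κ ^ 2 / D` slots with weight at
least `κ ^ 43` are not hit. -/
def C2 (M κ La D : ℕ) (b b' : V M → Fin M → Fin M) (T : V M → V M → ℕ) : Prop :=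
  ∀ Q : Finset (V M), (∀ v ∈ Q, v.1.val < κ ^ 40) → Q.card = 2 * La * M →
  ∀ S : Finset (V M × ℕ × ℕ),
    (∀ p ∈ S, p.1.1.val < κ ^ 80 ∧ p.1.2.val < κ ^ 80 ∧ p.2.1 < 2 * M / κ ^ 20 ∧
      p.2.2 < κ ^ 2) →
    Set.InjOn (fun p : V M × ℕ × ℕ => (bx (κ ^ 40) p.1, p.2)) (S : Set (V M × ℕ × ℕ)) →
    (∀ p ∈ S, κ ^ 43 ≤
      (Q.filter fun v => eff M κ b b' p.1 (p.2.1 / κ ^ 42 * κ ^ 2 + p.2.2) v.2).card) →
    (∀ p ∈ S, ∀ v ∈ Q, eff M κ b b' p.1 (p.2.1 / κ ^ 42 * κ ^ 2 + p.2.2) v.2 →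
      T (bx (κ ^ 40) p.1) v ≠ p.2.1 % κ ^ 42) →
    S.card < La * M * κ ^ 2 / D

/-- the row `ρ` is in the bundle `j` of level `e` along the chain `ω` -/
def inB (M k E : ℕ) (ω : Fin (E + 1) → Fin M → Fin M) (e : Fin E) (j : ℕ) (ρ : Fin M) : Prop :=
  (ω e.castSucc ρ).val / ka k e ^ 46 = j ∧ j < 2 * M / ka k e ^ 62 ∧
    2 * M / ka k e ^ 32 ≤ (ω e.succ ρ).val

instance (M k E : ℕ) (ω : Fin (E + 1) → Fin M → Fin M) (e : Fin E) (j : ℕ) :
    DecidablePred (inB M k E ω e j) := fun _ => by unfold inB; infer_instance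

/-- the conclusion of the peeling lemma: every row is given to one level so that every bundle
loses at most 256 rows -/
def PG (M k E : ℕ) (ω : Fin (E + 1) → Fin M → Fin M) : Prop :=
  ∃ s : Fin M → Fin E, ∀ (e : Fin E) (j : ℕ),
    (univ.filter fun ρ => inB M k E ω e j ρ ∧ s ρ ≠ e).card ≤ 256

/-- the set of all bundles -/
def Bun (M k E : ℕ) : Finset (Fin E × ℕ) :=
  (univ ×ˢ range M).filter fun b => b.2 < 2 * M / ka k b.1 ^ 62

/-- `exc F ρ = (number of members of F containing ρ) - 1` (truncated) -/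
def exc (M k E : ℕ) (ω : Fin (E + 1) → Fin M → Fin M) (F : Finset (Fin E × ℕ)) (ρ : Fin M) :
    ℕ := (F.filter fun b => inB M k E ω b.1 b.2 ρ).card - 1

/-- the numerical hypotheses: `k` is large, `M = 2 ^ μ`, `Lambda_E = 2 ^ (20 k 2 ^ E)` is between
`M ^ (1/20)` and `M ^ (1/10)`, `M` is large. -/
structure Par (k E μ : ℕ) : Prop where
  hk : 100 ≤ k
  hE : 1 ≤ E
  h1 : 200 * (k * 2 ^ E) ≤ μ
  h2 : μ ≤ 400 * (k * 2 ^ E)

/-- conflict pairs of `h` for `(P, Q)` -/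
def cf {M : ℕ} (h : V M → V M → V M) (P Q : Finset (V M)) : Finset (V M × V M) :=
  (P ×ˢ Q).filter fun p => h p.1 p.2 ∈ P ∧ h p.1 p.2 ≠ p.1

/-- the hub function before the base override -/
def h0 (M k E : ℕ) (β : Fin (E + 1) → V M → Fin M → Fin M) (T : Fin E → V M → V M → ℕ)
    (s : V M → Fin M → Fin E) (x z : V M) : V M :=
  hub (wd M k (s x z.2)) x
    ((β (s x z.2).castSucc (bx (wd M k ((s x z.2 : ℕ) + 1)) x) z.2).val
        / ka k (s x z.2) ^ 46 * ka k (s x z.2) ^ 42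
      + T (s x z.2) (bx (wd M k ((s x z.2 : ℕ) + 1)) x) (rc (wd M k ((s x z.2 : ℕ) + 1)) z))

end Pool.Agent.TK
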