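import Pool.Agent.TK.Cells
import Pool.Agent.H63.WK.Game

/-! # Project TK: the game (deterministic) -/

namespace Pool.Agent.TK

open Finset

theorem unit_eq {q l q' l' L : ℕ} (hl : l < L) (hl' : l' < L) (h : q * L + l = q' * L + l') :
    q = q' ∧ l = l' := by
  have hL : 0 < L := by omega
  have h1 : (q * L + l) / L = (q' * L + l') / L := by rw [h]
  have h2 : (q * L + l) / L = q := by
    rw [mul_comm, Nat.mul_add_div hL, Nat.div_eq_of_lt hl, add_zero]
  have h3 : (q' * L + l') / L = q' := by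
    rw [mul_comm, Nat.mul_add_div hL, Nat.div_eq_of_lt hl', add_zero]
  rw [h2, h3] at h1
  subst h1
  exact ⟨rfl, by omega⟩

/-- counting the slots: abstract form of the step from the two claims to hit slots. -/
theorem slots_count {W B : Type*} [DecidableEq W] [DecidableEq B]
    (A : Finset W) (L τ u₀ s₀ : ℕ) (X : W → B) (cb : B → B) (t : W → ℕ)
    (hinj : Set.InjOn (fun a => (cb (X a), t a)) (A : Set W))
    (hτ : 0 < τ)
    (bad : B → ℕ → Prop) (hit : W → ℕ → Prop)
    (h1 : ∀ U : Finset (B × ℕ), (∀ p ∈ U, ∃ a ∈ A, ∃ l < L, p = (X a, t a / τ * L + l)) →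
      Set.InjOn (fun p : B × ℕ => (cb p.1, p.2)) (U : Set (B × ℕ)) →
      (∀ p ∈ U, bad p.1 p.2) → U.card < u₀)
    (h2 : ∀ S : Finset (B × ℕ × ℕ), (∀ p ∈ S, ∃ a ∈ A, ∃ l < L, p = (X a, t a, l)) →
      Set.InjOn (fun p : B × ℕ × ℕ => (cb p.1, p.2)) (S : Set (B × ℕ × ℕ)) →
      (∀ p ∈ S, ¬ bad p.1 (p.2.1 / τ * L + p.2.2)) →
      (∀ p ∈ S, ∀ a ∈ A, p.1 = X a → p.2.1 = t a → ¬ hit a p.2.2) → S.card < s₀)
    [DecidablePred (fun p : W × ℕ => hit p.1 p.2)] :
    A.card * L ≤ ((A ×ˢ range L).filter (fun p => hit p.1 p.2)).card + u₀ * τ + s₀ := by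
  classical
  set All := A ×ˢ range L with hAll
  set NH := All.filter (fun p => ¬ hit p.1 p.2) with hNH
  set NB := NH.filter (fun p => bad (X p.1) (t p.1 / τ * L + p.2)) with hNB
  set NG := NH.filter (fun p => ¬ bad (X p.1) (t p.1 / τ * L + p.2)) with hNG
  have hc : All.card = A.card * L := by
    rw [hAll, Finset.card_product, Finset.card_range]
  have hc1 : (All.filter (fun p => hit p.1 p.2)).card + NH.card = All.card :=
    Finset.card_filter_add_card_filter_not _
  have hc2 : NB.card + NG.card = NH.card := Finset.card_filter_add_card_filter_not _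
  have memAll : ∀ p ∈ NH, p.1 ∈ A ∧ p.2 < L := by
    intro p hp
    have := (Finset.mem_filter.mp hp).1
    rw [hAll, Finset.mem_product, Finset.mem_range] at this
    exact this
  -- the good slots which are not hit
  have hG : NG.card < s₀ := by
    have hinjG : Set.InjOn (fun p : W × ℕ => (X p.1, t p.1, p.2)) (NG : Set (W × ℕ)) := by
      intro p hp p' hp' heq
      have hpA := memAll p (Finset.mem_filter.mp (Finset.mem_coe.mp hp)).1
      have hpA' := memAll p' (Finset.mem_filter.mp (Finset.mem_coe.mp hp')).1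
      simp only [Prod.mk.injEq] at heq
      have : p.1 = p'.1 := hinj (Finset.mem_coe.mpr hpA.1) (Finset.mem_coe.mpr hpA'.1)
        (by
          show (cb (X p.1), t p.1) = (cb (X p'.1), t p'.1)
          rw [heq.1, heq.2.1])
      exact Prod.ext this heq.2.2
    have h3 := h2 (NG.image (fun p : W × ℕ => (X p.1, t p.1, p.2)))
      (by
        intro q hq
        obtain ⟨p, hp, rfl⟩ := Finset.mem_image.mp hq
        have hpA := memAll p (Finset.mem_filter.mp hp).1
        exact ⟨p.1, hpA.1, p.2, hpA.2, rfl⟩)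
      (by
        intro q hq q' hq' heq
        obtain ⟨p, hp, rfl⟩ := Finset.mem_image.mp (Finset.mem_coe.mp hq)
        obtain ⟨p', hp', rfl⟩ := Finset.mem_image.mp (Finset.mem_coe.mp hq')
        have hpA := memAll p (Finset.mem_filter.mp hp).1
        have hpA' := memAll p' (Finset.mem_filter.mp hp').1
        simp only [Prod.mk.injEq] at heq
        have : p.1 = p'.1 := hinj (Finset.mem_coe.mpr hpA.1) (Finset.mem_coe.mpr hpA'.1)
          (by
            show (cb (X p.1), t p.1) = (cb (X p'.1), t p'.1)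
            rw [heq.1, heq.2.1])
        show (X p.1, t p.1, p.2) = (X p'.1, t p'.1, p'.2)
        rw [this, heq.2.2])
      (by
        intro q hq
        obtain ⟨p, hp, rfl⟩ := Finset.mem_image.mp hq
        exact (Finset.mem_filter.mp hp).2)
      (by
        intro q hq a ha hXa hta
        obtain ⟨p, hp, rfl⟩ := Finset.mem_image.mp hq
        have hpA := memAll p (Finset.mem_filter.mp hp).1
        have : p.1 = a := hinj (Finset.mem_coe.mpr hpA.1) (Finset.mem_coe.mpr ha)
          (by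
            show (cb (X p.1), t p.1) = (cb (X a), t a)
            have e1 : X p.1 = X a := hXa
            have e2 : t p.1 = t a := hta
            rw [e1, e2])
        rw [← this]
        exact (Finset.mem_filter.mp (Finset.mem_filter.mp hp).1).2)
    rwa [Finset.card_image_of_injOn hinjG] at h3
  -- the slots in bad units
  have hB : NB.card ≤ u₀ * τ := by
    set key : W × ℕ → B × ℕ := fun p => (cb (X p.1), t p.1 / τ * L + p.2) with hkey
    have hfib : ∀ c ∈ NB.image key, (NB.filter (fun p => key p = c)).card ≤ τ := by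
      intro c _
      have : (NB.filter (fun p => key p = c)).card ≤ (range τ).card := by
        apply Finset.card_le_card_of_injOn (fun p => t p.1 % τ)
        · intro p _
          rw [Finset.mem_coe, Finset.mem_range]
          exact Nat.mod_lt _ hτ
        · intro p hp p' hp' heq
          have hq := Finset.mem_filter.mp (Finset.mem_coe.mp hp)
          have hq' := Finset.mem_filter.mp (Finset.mem_coe.mp hp')
          have hpA := memAll p (Finset.mem_filter.mp hq.1).1
          have hpA' := memAll p' (Finset.mem_filter.mp hq'.1).1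
          have hk : key p = key p' := by rw [hq.2, hq'.2]
          simp only [hkey, Prod.mk.injEq] at hk
          obtain ⟨e1, e2⟩ := unit_eq hpA.2 hpA'.2 hk.2
          have e3 : t p.1 = t p'.1 := by
            have h5 : t p.1 % τ = t p'.1 % τ := heq
            rw [← Nat.div_add_mod (t p.1) τ, ← Nat.div_add_mod (t p'.1) τ, e1, h5]
          have e4 : p.1 = p'.1 := hinj (Finset.mem_coe.mpr hpA.1) (Finset.mem_coe.mpr hpA'.1)
            (by
              show (cb (X p.1), t p.1) = (cb (X p'.1), t p'.1)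
              rw [hk.1, e3])
          exact Prod.ext e4 e2
      rwa [Finset.card_range] at this
    have h4 : NB.card ≤ τ * (NB.image key).card :=
      Finset.card_le_mul_card_image NB τ hfib
    have h5 : (NB.image key).card < u₀ := by
      have hrep : ∀ c ∈ NB.image key, ∃ p ∈ NB, key p = c := fun c hc => by
        simpa using hc
      choose g hg1 hg2 using hrep
      set U : Finset (B × ℕ) := (NB.image key).attach.image
        (fun c => (X (g c.1 c.2).1, t (g c.1 c.2).1 / τ * L + (g c.1 c.2).2)) with hU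
      have hUc : U.card = (NB.image key).card := by
        rw [hU, Finset.card_image_of_injOn, Finset.card_attach]
        intro c _ c' _ heq
        simp only [Prod.mk.injEq] at heq
        have e1 := hg2 c.1 c.2
        have e2 := hg2 c'.1 c'.2
        apply Subtype.ext
        rw [← e1, ← e2]
        simp only [hkey, Prod.mk.injEq]
        exact ⟨by rw [heq.1], heq.2⟩
      rw [← hUc]
      apply h1
      · intro p hp
        obtain ⟨c, _, rfl⟩ := Finset.mem_image.mp hp
        have hpA := memAll _ (Finset.mem_filter.mp (hg1 c.1 c.2)).1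
        exact ⟨(g c.1 c.2).1, hpA.1, (g c.1 c.2).2, hpA.2, rfl⟩
      · intro p hp p' hp' heq
        obtain ⟨c, _, rfl⟩ := Finset.mem_image.mp (Finset.mem_coe.mp hp)
        obtain ⟨c', _, rfl⟩ := Finset.mem_image.mp (Finset.mem_coe.mp hp')
        have e1 := hg2 c.1 c.2
        have e2 := hg2 c'.1 c'.2
        have e3 : c.1 = c'.1 := by
          rw [← e1, ← e2]
          exact heq
        have e4 : c = c' := Subtype.ext e3
        rw [e4]
      · intro p hp
        obtain ⟨c, _, rfl⟩ := Finset.mem_image.mp hp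
        exact (Finset.mem_filter.mp (hg1 c.1 c.2)).2
    calc NB.card ≤ τ * (NB.image key).card := h4
      _ ≤ τ * u₀ := Nat.mul_le_mul_left _ h5.le
      _ = u₀ * τ := mul_comm _ _
  omega

/-- the number of hit slots -/
theorem hits_ge {M κ La D : ℕ} (hLP : LP M κ La D) (b b' : V M → Fin M → Fin M)
    (T : V M → V M → ℕ) (h1 : C1 M κ La D b b') (h2 : C2 M κ La D b b' T)
    (A Qc : Finset (V M)) (hQlt : ∀ v ∈ Qc, v.1.val < κ ^ 40) (hQc : Qc.card = 2 * La * M)
    (X : V M → V M) (t : V M → ℕ)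
    (hX : ∀ a ∈ A, (X a).1.val < κ ^ 80 ∧ (X a).2.val < κ ^ 80)
    (ht : ∀ a ∈ A, t a < 2 * (M / κ ^ 20))
    (hinj : Set.InjOn (fun a => (bx (κ ^ 40) (X a), t a)) (A : Set (V M)))
    (hit : V M → ℕ → Prop)
    (hhit : ∀ a l, hit a l ↔ ∃ v ∈ Qc, eff M κ b b' (X a) (t a / κ ^ 42 * κ ^ 2 + l) v.2 ∧
      T (bx (κ ^ 40) (X a)) v = t a % κ ^ 42)
    [DecidablePred (fun p : V M × ℕ => hit p.1 p.2)] [∀ a, DecidablePred (hit a)] :
    A.card * κ ^ 2 ≤ ∑ a ∈ A, ((range (κ ^ 2)).filter (hit a)).card +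
      La * M / (D * κ ^ 40) * κ ^ 42 + La * M * κ ^ 2 / D := by
  classical
  have hκpos : 0 < κ := hLP.κpos
  have ht' : ∀ a ∈ A, t a / κ ^ 42 < 2 * M / κ ^ 62 := by
    intro a ha
    have h3 := ht a ha
    obtain ⟨c, hc⟩ := hLP.dvd (a := 62) (by norm_num)
    have e1 : M / κ ^ 20 = κ ^ 42 * c := by
      rw [hc, show κ ^ 62 * c = κ ^ 20 * (κ ^ 42 * c) by ring,
        Nat.mul_div_cancel_left _ (by positivity)]
    have e2 : 2 * M / κ ^ 62 = 2 * c := by
      rw [hc, show 2 * (κ ^ 62 * c) = κ ^ 62 * (2 * c) by ring,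
        Nat.mul_div_cancel_left _ (by positivity)]
    rw [e2]
    rw [e1] at h3
    rw [Nat.div_lt_iff_lt_mul (by positivity)]
    calc t a < 2 * (κ ^ 42 * c) := h3
      _ = 2 * c * κ ^ 42 := by ring
  have hunit : ∀ a ∈ A, ∀ l < κ ^ 2, t a / κ ^ 42 * κ ^ 2 + l < 2 * M / κ ^ 60 := by
    intro a ha l hl
    have h3 := ht' a ha
    obtain ⟨c, hc⟩ := hLP.dvd (a := 62) (by norm_num)
    have e2 : 2 * M / κ ^ 62 = 2 * c := by
      rw [hc, show 2 * (κ ^ 62 * c) = κ ^ 62 * (2 * c) by ring,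
        Nat.mul_div_cancel_left _ (by positivity)]
    have e3 : 2 * M / κ ^ 60 = 2 * c * κ ^ 2 := by
      rw [hc, show 2 * (κ ^ 62 * c) = κ ^ 60 * (2 * c * κ ^ 2) by ring,
        Nat.mul_div_cancel_left _ (by positivity)]
    rw [e2] at h3
    rw [e3]
    calc t a / κ ^ 42 * κ ^ 2 + l < t a / κ ^ 42 * κ ^ 2 + κ ^ 2 := by omega
      _ = (t a / κ ^ 42 + 1) * κ ^ 2 := by ring
      _ ≤ 2 * c * κ ^ 2 := Nat.mul_le_mul_right _ h3
  have ht2 : ∀ a ∈ A, t a < 2 * M / κ ^ 20 := by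
    intro a ha
    have h3 := ht a ha
    obtain ⟨c, hc⟩ := hLP.dvd (a := 20) (by norm_num)
    have e1 : M / κ ^ 20 = c := by
      rw [hc, Nat.mul_div_cancel_left _ (by positivity)]
    have e2 : 2 * M / κ ^ 20 = 2 * c := by
      rw [hc, show 2 * (κ ^ 20 * c) = κ ^ 20 * (2 * c) by ring,
        Nat.mul_div_cancel_left _ (by positivity)]
    rw [e2]
    rw [e1] at h3
    exact h3
  have h3 := slots_count A (κ ^ 2) (κ ^ 42) (La * M / (D * κ ^ 40)) (La * M * κ ^ 2 / D) X
    (bx (κ ^ 40)) t hinj (by positivity)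
    (fun B u => (Qc.filter fun v => eff M κ b b' B u v.2).card < κ ^ 43) hit
    (by
      intro U hU hUi hUb
      apply h1 Qc hQlt hQc U _ hUi hUb
      intro p hp
      obtain ⟨a, ha, l, hl, rfl⟩ := hU p hp
      exact ⟨(hX a ha).1, (hX a ha).2, hunit a ha l hl⟩)
    (by
      intro S hS hSi hSb hSh
      apply h2 Qc hQlt hQc S _ hSi
      · intro p hp
        have := hSb p hp
        exact not_lt.mp this
      · intro p hp v hv hev heq
        obtain ⟨a, ha, l, hl, rfl⟩ := hS p hp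
        apply hSh _ hp a ha rfl rfl
        rw [hhit]
        exact ⟨v, hv, hev, heq⟩
      · intro p hp
        obtain ⟨a, ha, l, hl, rfl⟩ := hS p hp
        exact ⟨(hX a ha).1, (hX a ha).2, ht2 a ha, hl⟩)
  have h4 : ((A ×ˢ range (κ ^ 2)).filter (fun p => hit p.1 p.2)).card =
      ∑ a ∈ A, ((range (κ ^ 2)).filter (hit a)).card := by
    rw [Finset.card_filter, Finset.sum_product]
    apply Finset.sum_congr rfl
    intro a _
    rw [Finset.card_filter]
  rw [h4] at h3
  exact h3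

/-- The counting of section 3 of note 2821. `A` = the points `a` of `P` with a mate `x a` in `P`
and a target index `t a` of `x a` with hub `a`, the pairs (box of scale `e+1` of `x a`, `t a`)
being distinct; `Qc` = `2 La M` row-cells of scale `e+1` met by `Q`.

Slots `(bx (wd (e+2)) (x a), t a, l)`, `l < κ^2`: `A.card * κ^2` of them, distinct after the
projection of `C2`. Those in units with weight `< κ^43` (unit `t / κ^42 * κ^2 + l`): fewer than
`u₀ κ^42 = s₀ = La M κ^2 / D` (`C1` for one fine box per bad pair (coarse box, unit); one unit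
has `κ^42` targets). Those not hit: fewer than `s₀` (`C2`). `2 s₀ ≤ A.card * κ^2 / 4`. For fixed
`a` the hits of different layers are in different rows of the bundle `t a / κ^42` of level `e`
along the chain of `x a`, at most 256 of them are lost, the others are conflict pairs
`(x a, z)`, `h0 (x a) z = a`. -/
theorem game_count {k E μ : ℕ} (h : Par k E μ)
    (β : Fin (E + 1) → V (2 ^ μ) → Fin (2 ^ μ) → Fin (2 ^ μ))
    (T : Fin E → V (2 ^ μ) → V (2 ^ μ) → ℕ) (s : V (2 ^ μ) → Fin (2 ^ μ) → Fin E) (e : Fin E)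
    (hT : ∀ X v, T e X v < ka k e ^ 42)
    (h1 : C1 (2 ^ μ) (ka k e) (ka k 0 ^ 20) (2 ^ ((e : ℕ) + 5)) (β e.castSucc) (β e.succ))
    (h2 : C2 (2 ^ μ) (ka k e) (ka k 0 ^ 20) (2 ^ ((e : ℕ) + 5)) (β e.castSucc) (β e.succ) (T e))
    (hs : ∀ x j, (univ.filter fun ρ =>
      inB (2 ^ μ) k E (fun i => β i (bx (wd (2 ^ μ) k ((i : ℕ) + 1)) x)) e j ρ ∧
        s x ρ ≠ e).card ≤ 256)
    (P Q A Qc : Finset (V (2 ^ μ)))
    (hQ : ∀ v ∈ Qc, ∃ z ∈ Q, rc (wd (2 ^ μ) k ((e : ℕ) + 1)) z = v)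
    (hQc : Qc.card = 2 * ka k 0 ^ 20 * 2 ^ μ)
    (x : V (2 ^ μ) → V (2 ^ μ)) (t : V (2 ^ μ) → ℕ) (hAP : A ⊆ P)
    (hA : A.card = 4 * ka k 0 ^ 20 * 2 ^ μ / 2 ^ ((e : ℕ) + 4))
    (hx : ∀ a ∈ A, x a ∈ P ∧ x a ≠ a ∧ t a < 2 * wd (2 ^ μ) k e ∧
      hub (wd (2 ^ μ) k e) (x a) (t a) = a)
    (hinj : Set.InjOn (fun a => (bx (wd (2 ^ μ) k ((e : ℕ) + 1)) (x a), t a))
      (A : Set (V (2 ^ μ)))) :
    400 * (4 * ka k 0 ^ 20 * 2 ^ μ) ≤ (cf (h0 (2 ^ μ) k E β T s) P Q).card := by
  classical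
  have hLP := LP_of_Par h e.1 e.2
  have hκpos : 0 < ka k e := hLP.κpos
  -- the fine box
  obtain ⟨X, hX⟩ : ∃ X : V (2 ^ μ) → V (2 ^ μ), X = fun a => bx (wd (2 ^ μ) k ((e : ℕ) + 2)) (x a) :=
    ⟨_, rfl⟩
  have hXb : ∀ a, bx (ka k e ^ 40) (X a) = bx (wd (2 ^ μ) k ((e : ℕ) + 1)) (x a) := by
    intro a
    rw [hX]
    exact bx_par h e.1 e.2 (x a)
  have hXlt : ∀ a, (X a).1.val < ka k e ^ 80 ∧ (X a).2.val < ka k e ^ 80 := by
    intro a
    rw [hX]
    exact bx_lt h e.1 e.2 (x a)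
  have hQlt : ∀ v ∈ Qc, v.1.val < ka k e ^ 40 := by
    intro v hv
    obtain ⟨z, _, rfl⟩ := hQ v hv
    exact rc_lt h e.1 e.2 z
  have hne : Nonempty (V (2 ^ μ)) := ⟨(⟨0, by positivity⟩, ⟨0, by positivity⟩)⟩
  obtain ⟨hit, hhit⟩ : ∃ hit : V (2 ^ μ) → ℕ → Prop, hit = fun a l => ∃ v ∈ Qc,
      eff (2 ^ μ) (ka k e) (β e.castSucc) (β e.succ) (X a)
        (t a / ka k e ^ 42 * ka k e ^ 2 + l) v.2 ∧
      T e (bx (ka k e ^ 40) (X a)) v = t a % ka k e ^ 42 := ⟨_, rfl⟩
  have h3 := hits_ge hLP (β e.castSucc) (β e.succ) (T e) h1 h2 A Qc hQlt hQc X t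
    (fun a _ => hXlt a) (fun a ha => (hx a ha).2.2.1)
    (by
      intro a ha a' ha' heq
      apply hinj ha ha'
      simp only [hXb] at heq
      exact heq)
    hit (fun a l => by rw [hhit])
  -- the points of `Q`
  have hz : ∀ a l, hit a l → ∃ z ∈ Q, eff (2 ^ μ) (ka k e) (β e.castSucc) (β e.succ) (X a)
        (t a / ka k e ^ 42 * ka k e ^ 2 + l) z.2 ∧
      T e (bx (ka k e ^ 40) (X a)) (rc (wd (2 ^ μ) k ((e : ℕ) + 1)) z) =
        t a % ka k e ^ 42 := by
    intro a l hal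
    rw [hhit] at hal
    obtain ⟨v, hv, hev, hTv⟩ := hal
    obtain ⟨z, hzQ, rfl⟩ := hQ v hv
    exact ⟨z, hzQ, hev, hTv⟩
  choose! z hz1 hz2 hz3 using hz
  have h4 := Pool.Agent.H63.WK.confl_ge (h0 (2 ^ μ) k E β T s) P Q A hAP x
    (fun a ha => ⟨(hx a ha).1, (hx a ha).2.1⟩) 256
    (fun a => (range (ka k e ^ 2)).filter (hit a)) z Prod.snd
    (by
      intro a _ l hl
      exact hz1 a l (Finset.mem_filter.mp hl).2)
    (by
      intro a _ l hl l' hl' heq
      have e1 := (hz2 a l (Finset.mem_filter.mp hl).2).1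
      have e2 := (hz2 a l' (Finset.mem_filter.mp hl').2).1
      rw [heq] at e1
      omega)
    (by
      intro a ha
      have hj : t a / ka k e ^ 42 < 2 * 2 ^ μ / ka k e ^ 62 := by
        have h3 := (hx a ha).2.2.1
        obtain ⟨c, hc⟩ := hLP.dvd (a := 62) (by norm_num)
        have e1 : wd (2 ^ μ) k e = ka k e ^ 42 * c := by
          rw [wd, hc, show ka k e ^ 62 * c = ka k e ^ 20 * (ka k e ^ 42 * c) by ring,
            Nat.mul_div_cancel_left _ (by positivity)]
        have e2 : 2 * 2 ^ μ / ka k e ^ 62 = 2 * c := by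
          rw [hc, show 2 * (ka k e ^ 62 * c) = ka k e ^ 62 * (2 * c) by ring,
            Nat.mul_div_cancel_left _ (by positivity)]
        rw [e2]
        rw [e1] at h3
        rw [Nat.div_lt_iff_lt_mul (by positivity)]
        calc t a < 2 * (ka k e ^ 42 * c) := h3
          _ = 2 * c * ka k e ^ 42 := by ring
      refine le_trans ?_ (hs (x a) (t a / ka k e ^ 42))
      apply Finset.card_le_card_of_injOn (fun l => (z a l).2)
      · intro l hl
        have hl1 := Finset.mem_filter.mp (Finset.mem_coe.mp hl)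
        have hl2 := Finset.mem_filter.mp hl1.1
        have hlt : l < ka k e ^ 2 := Finset.mem_range.mp hl2.1
        obtain ⟨e1, e2⟩ := hz2 a l hl2.2
        have e3 := hz3 a l hl2.2
        rw [hXb] at e1 e3
        have e4 : (β e.castSucc (bx (wd (2 ^ μ) k ((e : ℕ) + 1)) (x a)) (z a l).2).val /
            ka k e ^ 46 = t a / ka k e ^ 42 := by
          rw [show ka k e ^ 46 = ka k e ^ 44 * ka k e ^ 2 by ring, ← Nat.div_div_eq_div_mul, e1,
            mul_comm, Nat.mul_add_div (by positivity), Nat.div_eq_of_lt hlt, add_zero]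
        rw [Finset.mem_coe, Finset.mem_filter]
        refine ⟨Finset.mem_univ _, ⟨e4, hj, ?_⟩, ?_⟩
        · have e5 : X a = bx (wd (2 ^ μ) k ((e : ℕ) + 2)) (x a) := by rw [hX]
          rw [e5] at e2
          exact e2
        · intro hse
          apply hl1.2
          have e6 : h0 (2 ^ μ) k E β T s (x a) (z a l) = hub (wd (2 ^ μ) k e) (x a)
              ((β e.castSucc (bx (wd (2 ^ μ) k ((e : ℕ) + 1)) (x a)) (z a l).2).val /
                ka k e ^ 46 * ka k e ^ 42 +
              T e (bx (wd (2 ^ μ) k ((e : ℕ) + 1)) (x a))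
                (rc (wd (2 ^ μ) k ((e : ℕ) + 1)) (z a l))) := by
            unfold h0
            have hse' : s (x a) (z a l).2 = e := hse
            rw [hse']
          rw [e6, e4, e3]
          have e7 : t a / ka k e ^ 42 * ka k e ^ 42 + t a % ka k e ^ 42 = t a := by
            rw [mul_comm]
            exact Nat.div_add_mod _ _
          rw [e7]
          exact (hx a ha).2.2.2
      · intro l hl l' hl' heq
        have hl1 := Finset.mem_filter.mp (Finset.mem_coe.mp hl)
        have hl1' := Finset.mem_filter.mp (Finset.mem_coe.mp hl')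
        have e1 := (hz2 a l (Finset.mem_filter.mp hl1.1).2).1
        have e2 := (hz2 a l' (Finset.mem_filter.mp hl1'.1).2).1
        have heq' : (z a l).2 = (z a l').2 := heq
        rw [heq'] at e1
        omega)
  have h5 : (Pool.Agent.H63.WK.confl (h0 (2 ^ μ) k E β T s) P Q).card =
      (cf (h0 (2 ^ μ) k E β T s) P Q).card := rfl
  rw [h5] at h4
  -- numbers
  obtain ⟨c, hc⟩ := hLP.dvd_D (a := 40) (by norm_num)
  have hDpos := hLP.Dpos
  have hLapos := hLP.Lapos
  have n1 : ka k 0 ^ 20 * 2 ^ μ / (2 ^ ((e : ℕ) + 5) * ka k e ^ 40) = ka k 0 ^ 20 * c := by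
    rw [hc, show ka k 0 ^ 20 * (2 ^ ((e : ℕ) + 5) * ka k e ^ 40 * c) =
      (2 ^ ((e : ℕ) + 5) * ka k e ^ 40) * (ka k 0 ^ 20 * c) by ring,
      Nat.mul_div_cancel_left _ (by positivity)]
  have n2 : ka k 0 ^ 20 * 2 ^ μ * ka k e ^ 2 / 2 ^ ((e : ℕ) + 5) =
      ka k 0 ^ 20 * c * ka k e ^ 42 := by
    rw [hc, show ka k 0 ^ 20 * (2 ^ ((e : ℕ) + 5) * ka k e ^ 40 * c) * ka k e ^ 2 =
      2 ^ ((e : ℕ) + 5) * (ka k 0 ^ 20 * c * ka k e ^ 42) by ring,
      Nat.mul_div_cancel_left _ (by positivity)]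
  have n3 : A.card = 8 * (ka k 0 ^ 20 * c) * ka k e ^ 40 := by
    rw [hA, hc, show 4 * ka k 0 ^ 20 * (2 ^ ((e : ℕ) + 5) * ka k e ^ 40 * c) =
      2 ^ ((e : ℕ) + 4) * (8 * (ka k 0 ^ 20 * c) * ka k e ^ 40) by ring,
      Nat.mul_div_cancel_left _ (by positivity)]
  rw [n1, n2, n3] at h3
  rw [n3] at h4
  have n4 : 400 * (4 * ka k 0 ^ 20 * 2 ^ μ) =
      1600 * 2 ^ ((e : ℕ) + 5) * ((ka k 0 ^ 20 * c) * ka k e ^ 40) := by
    rw [hc]
    ring
  have n5 : 1600 * 2 ^ ((e : ℕ) + 5) + 2048 ≤ 6 * ka k e ^ 2 := by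
    have m1 := hLP.κ100
    have m2 := hLP.Dκ
    have m3 : (2 : ℕ) ^ 100 ≥ 2000 := by norm_num
    nlinarith
  obtain ⟨S, hS⟩ : ∃ S, S = ∑ a ∈ A, ((range (ka k e ^ 2)).filter (hit a)).card := ⟨_, rfl⟩
  rw [← hS] at h3 h4
  obtain ⟨g, hg⟩ : ∃ g, g = (ka k 0 ^ 20 * c) * ka k e ^ 40 := ⟨_, rfl⟩
  have n6 : 6 * ka k e ^ 2 * g ≤ S := by
    have : 8 * (ka k 0 ^ 20 * c) * ka k e ^ 40 * ka k e ^ 2 = 8 * ka k e ^ 2 * g := by
      rw [hg]; ring
    have e2 : ka k 0 ^ 20 * c * ka k e ^ 42 = ka k e ^ 2 * g := by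
      rw [hg]; ring
    rw [this, e2] at h3
    nlinarith
  have n7 : S ≤ (cf (h0 (2 ^ μ) k E β T s) P Q).card + 2048 * g := by
    have : 256 * (8 * (ka k 0 ^ 20 * c) * ka k e ^ 40) = 2048 * g := by
      rw [hg]; ring
    rw [← this]
    exact h4
  rw [n4, ← hg]
  have n8 : (1600 * 2 ^ ((e : ℕ) + 5) + 2048) * g ≤ 6 * ka k e ^ 2 * g :=
    Nat.mul_le_mul_right _ n5
  nlinarith

end Pool.Agent.TK
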