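import Pool.Agent.TK.Beta
import Pool.Agent.TK.Claim1D
import Pool.Agent.TK.Claim2U
import Pool.Agent.TK.Game
import Pool.Agent.TH.Frame

/-! # Project TK: `GameStat` -/

namespace Pool.Agent.TK

open Finset Pool.Agent.TH

theorem nn_eq (k μ : ℕ) : nn k μ = 4 * ka k 0 ^ 20 * 2 ^ μ := by
  rw [nn, TH.lam, TH.kk, ka, ← pow_mul]
  congr 3
  ring

theorem wd_pow {k e μ : ℕ} (h : TH.lam k e ≤ μ) : wd (2 ^ μ) k e = 2 ^ (μ - TH.lam k e) := by
  rw [TH.lam, TH.kk] at h ⊢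
  rw [wd, ka, ← pow_mul, mul_comm _ 20, Nat.pow_div h (by norm_num)]

theorem wd_dvd {k e μ : ℕ} (h : TH.lam k (e + 1) ≤ μ) :
    wd (2 ^ μ) k (e + 1) ∣ wd (2 ^ μ) k e := by
  have h1 : TH.lam k e ≤ TH.lam k (e + 1) := by
    rw [TH.lam, TH.lam, TH.kk, TH.kk, pow_succ]
    nlinarith [Nat.zero_le (k * 2 ^ e)]
  rw [wd_pow h, wd_pow (h1.trans h)]
  apply pow_dvd_pow
  omega

theorem div_eq_of_div_eq {a b w v : ℕ} (h : w ∣ v) (hab : a / w = b / w) : a / v = b / v := by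
  obtain ⟨c, rfl⟩ := h
  rw [← Nat.div_div_eq_div_mul, ← Nat.div_div_eq_div_mul, hab]

theorem cl_eq_of_dvd {M w v : ℕ} (h : w ∣ v) {i j : Fin M} (hij : cl w i = cl w j) :
    cl v i = cl v j := by
  simp only [cl, Fin.mk.injEq] at hij ⊢
  exact div_eq_of_div_eq h hij

theorem eq_of_cl_mod {M w : ℕ} {i j : Fin M} (h1 : cl w i = cl w j)
    (h2 : i.val % w = j.val % w) : i = j := by
  simp only [cl, Fin.mk.injEq] at h1
  apply Fin.ext
  rw [← Nat.div_add_mod i.val w, ← Nat.div_add_mod j.val w, h1, h2]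

theorem rowCell_iff {k e μ : ℕ} (h : TH.lam k e ≤ μ) (x y : V (2 ^ μ)) :
    rowCell μ (TH.lam k e) x = rowCell μ (TH.lam k e) y ↔
      cl (wd (2 ^ μ) k e) x.1 = cl (wd (2 ^ μ) k e) y.1 ∧ x.2 = y.2 := by
  rw [wd_pow h]
  simp only [rowCell, cls, cl, Prod.mk.injEq, Fin.mk.injEq]

theorem colCell_iff {k e μ : ℕ} (h : TH.lam k e ≤ μ) (x y : V (2 ^ μ)) :
    colCell μ (TH.lam k e) x = colCell μ (TH.lam k e) y ↔
      x.1 = y.1 ∧ cl (wd (2 ^ μ) k e) x.2 = cl (wd (2 ^ μ) k e) y.2 := by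
  rw [wd_pow h]
  simp only [colCell, cls, cl, Prod.mk.injEq, Fin.mk.injEq]

theorem card_image_rowCell {k e μ : ℕ} (h : TH.lam k e ≤ μ) (Q : Finset (V (2 ^ μ))) :
    (Q.image (rowCell μ (TH.lam k e))).card = (Q.image (rc (wd (2 ^ μ) k e))).card := by
  have h1 : Q.image (rowCell μ (TH.lam k e)) =
      (Q.image (rc (wd (2 ^ μ) k e))).image (fun v => (v.1.val, v.2)) := by
    rw [Finset.image_image]
    congr 1
    funext v
    simp only [Function.comp, rc, cl, rowCell, cls]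
    rw [wd_pow h]
  rw [h1, Finset.card_image_of_injective]
  rintro ⟨a, b⟩ ⟨a', b'⟩ hab
  simp only [Prod.mk.injEq] at hab
  rw [Prod.mk.injEq]
  exact ⟨Fin.ext hab.1, hab.2⟩

theorem dft_le (n E e : ℕ) : 16 * dft n E e ≤ 3 * n := by
  refine le_trans ?_ (dft_zero_le n E)
  apply Nat.mul_le_mul_left
  rw [dft, dft]
  apply Nat.add_le_add_left
  exact Finset.sum_le_sum_of_subset (Finset.Ico_subset_Ico (Nat.zero_le _) le_rfl)

/-- `TH.kk k e = k 2^e`, `TH.lam k e = 20 k 2^e`, `ka k e = 2 ^ kk k e`,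
`wd (2^μ) k e = 2 ^ (μ - lam k e)`, `nn k μ = 4 * ka k 0 ^ 20 * 2 ^ μ`; `rowCell μ (lam k e)` and
`rc (wd (2^μ) k e)` have the same fibers, likewise for columns; `Par k E μ` from the hypotheses.
`exists_beta`, `claim2` for each level, `PG` for each `x` (`choose`), `star_of_fail` for the
mates (`hub_col` with `t a = a.1 % wd`, `hub_row` with `t a = wd + a.2 % wd`), `Qc` inside
`Q.image (rc (wd (e+1)))` (`Spr`: at least `n / 2` row-cells), `game_count`. -/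
theorem gameStat {k E μ : ℕ} (hk : 100 ≤ k) (hE : 0 < E) (h1 : μ ≤ 20 * TH.lam k E)
    (h2 : 10 * TH.lam k E ≤ μ) : GameStat k μ E := by
  have h : Par k E μ := by
    rw [TH.lam, TH.kk] at h1 h2
    exact ⟨hk, hE, by omega, by omega⟩
  obtain ⟨β, hβ1, hβ2⟩ := exists_beta h
  choose s hs using hβ2
  have hcl : ∀ e : Fin E, ∃ T : V (2 ^ μ) → V (2 ^ μ) → ℕ, (∀ X v, T X v < ka k e ^ 42) ∧
      C2 (2 ^ μ) (ka k e) (ka k 0 ^ 20) (2 ^ ((e : ℕ) + 5)) (β e.castSucc) (β e.succ) T :=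
    fun e => claim2 (LP_of_Par h e e.2) (β e.castSucc) (β e.succ)
  choose T hT1 hT2 using hcl
  refine ⟨h0 (2 ^ μ) k E β T s, ?_⟩
  intro e he P Q hP hQ hPQ hSP hSQ hF
  set ee : Fin E := ⟨e, he⟩ with hee
  have hLP := LP_of_Par h e he
  -- the scales
  have hlamE : ∀ j ≤ E, TH.lam k j ≤ μ := by
    intro j hj
    have h3 : TH.lam k j ≤ TH.lam k E := by
      rw [TH.lam, TH.lam, TH.kk, TH.kk]
      have := Nat.pow_le_pow_right (n := 2) (by norm_num) hj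
      have := Nat.mul_le_mul_left k this
      omega
    omega
  have hle := hlamE e he.le
  have hle1 := hlamE (e + 1) he
  have hwpos : 0 < wd (2 ^ μ) k e := by
    rw [wd_pow hle]
    positivity
  have hdvd := wd_dvd hle1
  -- the cells of Q
  obtain ⟨Qc, hQc1, hQc2⟩ : ∃ Qc ⊆ Q.image (rc (wd (2 ^ μ) k (e + 1))),
      Qc.card = 2 * ka k 0 ^ 20 * 2 ^ μ := by
    apply Finset.exists_subset_card_eq
    rw [← card_image_rowCell hle1]
    have h3 := hSQ.1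
    have h4 := dft_le (nn k μ) E (e + 1)
    rw [nn_eq] at h3 h4
    have h5 : 2 * (2 * ka k 0 ^ 20 * 2 ^ μ) = 4 * ka k 0 ^ 20 * 2 ^ μ := by ring
    omega
  have hQ' : ∀ v ∈ Qc, ∃ z ∈ Q, rc (wd (2 ^ μ) k ((ee : ℕ) + 1)) z = v := by
    intro v hv
    have := hQc1 hv
    rw [Finset.mem_image] at this
    exact this
  -- the final step
  have key : ∀ (A : Finset (V (2 ^ μ))) (x : V (2 ^ μ) → V (2 ^ μ)) (t : V (2 ^ μ) → ℕ),
      A ⊆ P → A.card = nn k μ / 2 ^ (e + 4) →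
      (∀ a ∈ A, x a ∈ P ∧ x a ≠ a ∧ t a < 2 * wd (2 ^ μ) k e ∧
        hub (wd (2 ^ μ) k e) (x a) (t a) = a) →
      Set.InjOn (fun a => (bx (wd (2 ^ μ) k (e + 1)) (x a), t a)) (A : Set (V (2 ^ μ))) →
      400 * nn k μ ≤ (confl (h0 (2 ^ μ) k E β T s) P Q).card := by
    intro A x t hA hAc hx hinj
    rw [nn_eq] at hAc ⊢
    exact game_count h β T s ee (hT1 ee) (C1_of_C1R hLP (hβ1 ee)) (hT2 ee)
      (fun x j => hs x ee j) P Q A Qc hQ' hQc2 x t hA hAc hx hinj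
  have hne : Nonempty (V (2 ^ μ)) := ⟨(⟨0, by positivity⟩, ⟨0, by positivity⟩)⟩
  rcases star_of_fail hSP hF with ⟨A, hA, hAc, hinj, hm⟩ | ⟨A, hA, hAc, hinj, hm⟩
  · choose! x hx1 hx2 hx3 using hm
    refine key A x (fun a => a.1.val % wd (2 ^ μ) k e) hA hAc ?_ ?_
    · intro a ha
      have hrc := (rowCell_iff hle _ _).mp (hx3 a ha)
      refine ⟨hx1 a ha, hx2 a ha, ?_, hub_col hwpos hrc.2.symm hrc.1.symm⟩
      have h5 : a.1.val % wd (2 ^ μ) k e < wd (2 ^ μ) k e := Nat.mod_lt _ hwpos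
      change a.1.val % wd (2 ^ μ) k e < 2 * wd (2 ^ μ) k e
      omega
    · intro a ha a' ha' haa
      rw [Finset.mem_coe] at ha ha'
      simp only [bx, Prod.mk.injEq] at haa
      obtain ⟨⟨hb1, hb2⟩, ht⟩ := haa
      have hrc := (rowCell_iff hle _ _).mp (hx3 a ha)
      have hrc' := (rowCell_iff hle _ _).mp (hx3 a' ha')
      apply hinj ha ha'
      rw [colCell_iff hle1]
      refine ⟨?_, ?_⟩
      · apply eq_of_cl_mod _ ht
        rw [← hrc.1, ← hrc'.1]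
        exact cl_eq_of_dvd hdvd hb1
      · rw [← hrc.2, ← hrc'.2]
        exact hb2
  · choose! x hx1 hx2 hx3 using hm
    refine key A x (fun a => wd (2 ^ μ) k e + a.2.val % wd (2 ^ μ) k e) hA hAc ?_ ?_
    · intro a ha
      have hrc := (colCell_iff hle _ _).mp (hx3 a ha)
      refine ⟨hx1 a ha, hx2 a ha, ?_, hub_row hrc.1.symm hrc.2.symm⟩
      have h5 : a.2.val % wd (2 ^ μ) k e < wd (2 ^ μ) k e := Nat.mod_lt _ hwpos
      change wd (2 ^ μ) k e + a.2.val % wd (2 ^ μ) k e < 2 * wd (2 ^ μ) k e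
      omega
    · intro a ha a' ha' haa
      rw [Finset.mem_coe] at ha ha'
      simp only [bx, Prod.mk.injEq] at haa
      obtain ⟨⟨hb1, hb2⟩, ht⟩ := haa
      have hrc := (colCell_iff hle _ _).mp (hx3 a ha)
      have hrc' := (colCell_iff hle _ _).mp (hx3 a' ha')
      apply hinj ha ha'
      rw [rowCell_iff hle1]
      refine ⟨?_, ?_⟩
      · rw [← hrc.1, ← hrc'.1]
        exact hb1
      · apply eq_of_cl_mod _ (by omega : a.2.val % wd (2 ^ μ) k e = a'.2.val % wd (2 ^ μ) k e)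
        rw [← hrc.2, ← hrc'.2]
        exact cl_eq_of_dvd hdvd hb2

theorem hstat : HStat (2 ^ TH.lam 100 0) :=
  hstat_of_gameStat (μ₁ := 0) (by norm_num) (fun _ _ _ hE h1 h2 => gameStat le_rfl hE h1 h2)

/-- the theorem -/
theorem isTheta_setMapping :
    (fun n : ℕ => (Pool.Agent.H78.SM.setMapping
      (completeBipartiteGraph (Fin n) (Fin n)) : ℝ)) =Θ[Filter.atTop]
      (fun n : ℕ => (n : ℝ) ^ 2) :=
  isTheta_of_hstat (by positivity) hstat

end Pool.Agent.TK
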