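import Pool.Agent.TK.Defs

/-! # Project TK: elementary facts about the numbers and the classes -/

namespace Pool.Agent.TK

open Finset

theorem ka_succ (k e : ℕ) : ka k (e + 1) = ka k e ^ 2 := by
  rw [ka, ka, ← pow_mul]
  congr 1
  ring

theorem wd_succ (M k e : ℕ) : wd M k (e + 1) = M / ka k e ^ 40 := by
  rw [wd, ka_succ, ← pow_mul]

theorem wd_succ2 (M k e : ℕ) : wd M k (e + 2) = M / ka k e ^ 80 := by
  rw [wd, ka_succ, ka_succ, ← pow_mul, ← pow_mul]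

theorem LP_of_Par {k E μ : ℕ} (h : Par k E μ) (e : ℕ) (he : e < E) :
    LP (2 ^ μ) (ka k e) (ka k 0 ^ 20) (2 ^ (e + 5)) := by
  have hk := h.hk
  have h2e : e + 1 ≤ 2 ^ e := Nat.lt_two_pow_self
  have h1e : 1 ≤ 2 ^ e := Nat.one_le_two_pow
  have hkk : 100 * (e + 1) ≤ k * 2 ^ e := Nat.mul_le_mul hk h2e
  have hEe : 2 ^ e ≤ 2 ^ E := Nat.pow_le_pow_right (by norm_num) he.le
  have hkE : k * 2 ^ e ≤ k * 2 ^ E := Nat.mul_le_mul_left k hEe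
  refine ⟨⟨μ, rfl⟩, ⟨_, rfl⟩, ⟨k * 2 ^ 0 * 20, ?_⟩, ⟨e + 5, rfl⟩, ?_, ?_, ?_, ?_, ?_⟩
  · rw [ka, ← pow_mul]
  · rw [ka]
    exact Nat.pow_le_pow_right (by norm_num) (by omega)
  · rw [ka, ← pow_mul]
    apply Nat.pow_le_pow_right (by norm_num)
    have := h.h1
    omega
  · rw [ka, ← pow_mul]
    apply Nat.pow_le_pow_right (by norm_num)
    omega
  · rw [ka, ka, ← pow_mul, ← pow_mul]
    apply Nat.pow_le_pow_right (by norm_num)
    apply Nat.mul_le_mul_right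
    apply Nat.mul_le_mul_left
    simpa using h1e
  · rw [ka]
    apply Nat.pow_le_pow_right (by norm_num)
    omega

/-- powers of `κ` divide `M` -/
theorem LP.dvd {M κ La D : ℕ} (h : LP M κ La D) {a : ℕ} (ha : a ≤ 200) : κ ^ a ∣ M := by
  obtain ⟨μ, hM⟩ := h.hM
  obtain ⟨c, hc⟩ := h.hκ
  have h1 := h.κM
  rw [hM, hc, ← pow_mul] at h1 ⊢
  rw [Nat.pow_le_pow_iff_right (by norm_num)] at h1
  apply pow_dvd_pow
  exact (Nat.mul_le_mul_left c ha).trans h1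

theorem LP.κpos {M κ La D : ℕ} (h : LP M κ La D) : 0 < κ :=
  lt_of_lt_of_le (by positivity) h.κ100

theorem LP.Mpos {M κ La D : ℕ} (h : LP M κ La D) : 0 < M := by
  obtain ⟨μ, hM⟩ := h.hM
  rw [hM]
  positivity

theorem LP.Lapos {M κ La D : ℕ} (h : LP M κ La D) : 0 < La :=
  lt_of_lt_of_le (by positivity) h.La100

theorem LP.Dpos {M κ La D : ℕ} (h : LP M κ La D) : 0 < D := by
  obtain ⟨d, hD⟩ := h.hD
  rw [hD]
  positivity

/-- `D * κ ^ a` divides `M` for `a ≤ 199`, `κ * 2 ^ i` divides `M` for `2 ^ i ≤ κ ^ 40` -/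
theorem LP.dvd_D {M κ La D : ℕ} (h : LP M κ La D) {a : ℕ} (ha : a ≤ 199) :
    D * κ ^ a ∣ M := by
  obtain ⟨μ, hM⟩ := h.hM
  obtain ⟨c, hc⟩ := h.hκ
  obtain ⟨d, hd⟩ := h.hD
  have h1 := h.κM
  have h2 := h.Dκ
  rw [hM, hc, ← pow_mul, Nat.pow_le_pow_iff_right (by norm_num)] at h1
  rw [hc, hd, Nat.pow_le_pow_iff_right (by norm_num)] at h2
  rw [hM, hc, hd, ← pow_mul, ← pow_add]
  apply pow_dvd_pow
  have h3 : c * a ≤ c * 199 := Nat.mul_le_mul_left c ha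
  omega

theorem LP.dvd_i {M κ La D : ℕ} (h : LP M κ La D) {i : ℕ} (hi : 2 ^ i ≤ κ ^ 40) :
    κ * 2 ^ i ∣ M := by
  obtain ⟨μ, hM⟩ := h.hM
  obtain ⟨c, hc⟩ := h.hκ
  have h1 := h.κM
  rw [hM, hc, ← pow_mul, Nat.pow_le_pow_iff_right (by norm_num)] at h1
  rw [hc, ← pow_mul, Nat.pow_le_pow_iff_right (by norm_num)] at hi
  rw [hM, hc, ← pow_add]
  apply pow_dvd_pow
  omega

/-- if `2 ^ i ≤ κ ^ a` then `2 ^ i ∣ κ ^ a` -/
theorem LP.two_dvd {M κ La D : ℕ} (h : LP M κ La D) {i a : ℕ} (hi : 2 ^ i ≤ κ ^ a) :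
    2 ^ i ∣ κ ^ a := by
  obtain ⟨c, hc⟩ := h.hκ
  rw [hc, ← pow_mul, Nat.pow_le_pow_iff_right (by norm_num)] at hi
  rw [hc, ← pow_mul]
  exact pow_dvd_pow _ hi

/-- a binomial coefficient bound -/
theorem choose_le_pow (N m : ℕ) (hm : 0 < m) :
    ((N.choose m : ℕ) : ℝ) ≤ (3 * (N : ℝ) / m) ^ m := by
  have hmR : (0 : ℝ) < m := by exact_mod_cast hm
  have h1 : ((N.choose m : ℕ) : ℝ) ≤ (N : ℝ) ^ m / (m.factorial : ℝ) :=
    Nat.choose_le_pow_div m N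
  have h2 : (m : ℝ) ^ m / (m.factorial : ℝ) ≤ Real.exp m :=
    Real.pow_div_factorial_le_exp (m : ℝ) hmR.le m
  have h3 : Real.exp (m : ℝ) ≤ 3 ^ m := by
    have h4 : Real.exp (m : ℝ) = Real.exp 1 ^ m := by
      rw [← Real.exp_nat_mul, mul_one]
    rw [h4]
    have h5 : Real.exp 1 ≤ 3 := by
      have := Real.exp_one_lt_d9
      linarith
    exact pow_le_pow_left₀ (Real.exp_pos _).le h5 _
  have hf : (0 : ℝ) < (m.factorial : ℝ) := by exact_mod_cast Nat.factorial_pos m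
  have h6 : (m : ℝ) ^ m ≤ 3 ^ m * (m.factorial : ℝ) := by
    rw [div_le_iff₀ hf] at h2
    exact h2.trans (mul_le_mul_of_nonneg_right h3 hf.le)
  refine h1.trans ?_
  rw [div_pow, mul_pow, div_le_div_iff₀ hf (pow_pos hmR m)]
  calc (N : ℝ) ^ m * (m : ℝ) ^ m ≤ (N : ℝ) ^ m * (3 ^ m * (m.factorial : ℝ)) :=
        mul_le_mul_of_nonneg_left h6 (by positivity)
    _ = 3 ^ m * (N : ℝ) ^ m * (m.factorial : ℝ) := by ring

end Pool.Agent.TK
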